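import Mathlib

set_option autoImplicit false
set_option linter.unusedSectionVars false

/-!
# Conflict-free matchings avoiding a graph of small maximum degree
-/

namespace Pool.Agent.H289R4

open Classical Finset

variable {V : Type} [Fintype V]

/-- neighbours -/
noncomputable def nb (H : SimpleGraph V) (u : V) : Finset V :=
  Finset.univ.filter (fun v => H.Adj u v)

theorem mem_nb {H : SimpleGraph V} {u v : V} : v ∈ nb H u ↔ H.Adj u v := by
  simp [nb]

/-- a matching of non-edges of `H` without conflicts -/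
structure Good (H : SimpleGraph V) (F : Finset (Sym2 V)) : Prop where
  ne : ∀ a b, s(a, b) ∈ F → a ≠ b
  nadj : ∀ a b, s(a, b) ∈ F → ¬ H.Adj a b
  uniq : ∀ a b c, s(a, b) ∈ F → s(a, c) ∈ F → b = c
  conf : ∀ a b c d, s(a, b) ∈ F → s(c, d) ∈ F → H.Adj a d → H.Adj c b → False

/-- unmatched vertices -/
noncomputable def un (F : Finset (Sym2 V)) : Finset V :=
  Finset.univ.filter (fun v => ∀ w, s(v, w) ∉ F)

/-- matched vertices -/
noncomputable def ma (F : Finset (Sym2 V)) : Finset V :=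
  Finset.univ.filter (fun v => ∃ w, s(v, w) ∈ F)

theorem mem_un {F : Finset (Sym2 V)} {v : V} : v ∈ un F ↔ ∀ w, s(v, w) ∉ F := by
  simp [un]

theorem mem_ma {F : Finset (Sym2 V)} {v : V} : v ∈ ma F ↔ ∃ w, s(v, w) ∈ F := by
  simp [ma]

theorem card_un_add (F : Finset (Sym2 V)) : (un F).card + (ma F).card = Fintype.card V := by
  have h := Finset.card_filter_add_card_filter_not (s := (Finset.univ : Finset V))
    (fun v => ∀ w, s(v, w) ∉ F)
  have e : (Finset.univ.filter (fun v : V => ¬ ∀ w, s(v, w) ∉ F)) = ma F := by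
    ext v
    simp [ma]
  rw [e] at h
  exact h

/-- the partner -/
noncomputable def pa (F : Finset (Sym2 V)) (v : V) : V :=
  if h : ∃ w, s(v, w) ∈ F then h.choose else v

theorem pa_spec {F : Finset (Sym2 V)} {v : V} (h : ∃ w, s(v, w) ∈ F) : s(v, pa F v) ∈ F := by
  rw [pa, dif_pos h]
  exact h.choose_spec

theorem Good.pa_eq {H : SimpleGraph V} {F : Finset (Sym2 V)} (h : Good H F) {a b : V}
    (hab : s(a, b) ∈ F) : pa F a = b :=
  h.uniq a _ _ (pa_spec ⟨b, hab⟩) hab

theorem Good.pa_eq' {H : SimpleGraph V} {F : Finset (Sym2 V)} (h : Good H F) {a b : V}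
    (hab : s(a, b) ∈ F) : pa F b = a :=
  h.pa_eq (by rwa [Sym2.eq_swap])

theorem Good.mono {H : SimpleGraph V} {F F' : Finset (Sym2 V)} (h : Good H F) (hF : F' ⊆ F) :
    Good H F' :=
  ⟨fun a b hab => h.ne a b (hF hab), fun a b hab => h.nadj a b (hF hab),
    fun a b c h1 h2 => h.uniq a b c (hF h1) (hF h2),
    fun a b c d h1 h2 => h.conf a b c d (hF h1) (hF h2)⟩

theorem Good.ins {H : SimpleGraph V} {F : Finset (Sym2 V)} (h : Good H F) {a b : V}
    (hne : a ≠ b) (hna : ¬ H.Adj a b) (ha : ∀ w, s(a, w) ∉ F) (hb : ∀ w, s(b, w) ∉ F)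
    (hc : ∀ c d, s(c, d) ∈ F → ¬ (H.Adj a d ∧ H.Adj c b)) :
    Good H (insert s(a, b) F) := by
  have key : ∀ x y, s(x, y) ∈ insert s(a, b) F ↔
      ((x = a ∧ y = b) ∨ (x = b ∧ y = a)) ∨ s(x, y) ∈ F := by
    intro x y
    rw [Finset.mem_insert, Sym2.eq_iff]
  have ha' : ∀ w, s(w, a) ∉ F := fun w hw => ha w (by rwa [Sym2.eq_swap])
  have hb' : ∀ w, s(w, b) ∉ F := fun w hw => hb w (by rwa [Sym2.eq_swap])
  refine ⟨?_, ?_, ?_, ?_⟩
  · intro x y hxy
    rw [key] at hxy
    rcases hxy with (⟨rfl, rfl⟩ | ⟨rfl, rfl⟩) | hxy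
    · exact hne
    · exact hne.symm
    · exact h.ne _ _ hxy
  · intro x y hxy
    rw [key] at hxy
    rcases hxy with (⟨rfl, rfl⟩ | ⟨rfl, rfl⟩) | hxy
    · exact hna
    · exact fun hh => hna hh.symm
    · exact h.nadj _ _ hxy
  · intro x y z h1 h2
    rw [key] at h1 h2
    rcases h1 with (⟨rfl, rfl⟩ | ⟨rfl, rfl⟩) | h1
    · rcases h2 with (⟨h3, rfl⟩ | ⟨h3, rfl⟩) | h2
      · rfl
      · exact absurd h3 hne
      · exact absurd h2 (ha _)
    · rcases h2 with (⟨h3, rfl⟩ | ⟨h3, rfl⟩) | h2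
      · exact absurd h3.symm hne
      · rfl
      · exact absurd h2 (hb _)
    · rcases h2 with (⟨rfl, rfl⟩ | ⟨rfl, rfl⟩) | h2
      · exact absurd h1 (ha _)
      · exact absurd h1 (hb _)
      · exact h.uniq _ _ _ h1 h2
  · intro x y z w h1 h2 h3 h4
    rw [key] at h1 h2
    rcases h1 with (⟨rfl, rfl⟩ | ⟨rfl, rfl⟩) | h1
    · rcases h2 with (⟨rfl, rfl⟩ | ⟨rfl, rfl⟩) | h2
      · exact hna h3
      · exact H.irrefl h3
      · exact hc _ _ h2 ⟨h3, h4⟩
    · rcases h2 with (⟨rfl, rfl⟩ | ⟨rfl, rfl⟩) | h2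
      · exact H.irrefl h3
      · exact hna h3.symm
      · exact hc w z (by rwa [Sym2.eq_swap]) ⟨h4.symm, h3.symm⟩
    · rcases h2 with (⟨rfl, rfl⟩ | ⟨rfl, rfl⟩) | h2
      · exact hc _ _ h1 ⟨h4, h3⟩
      · exact hc y x (by rwa [Sym2.eq_swap]) ⟨h3.symm, h4.symm⟩
      · exact h.conf _ _ _ _ h1 h2 h3 h4

/-- the second neighbourhood through the matching -/
noncomputable def nn (H : SimpleGraph V) (F : Finset (Sym2 V)) (u : V) : Finset V :=
  (nb H u).biUnion (fun w => nb H (pa F w))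

theorem card_nn {H : SimpleGraph V} {F : Finset (Sym2 V)} {d : ℕ} (hd : ∀ v, (nb H v).card ≤ d)
    (u : V) : (nn H F u).card ≤ d * d := by
  refine (Finset.card_biUnion_le).trans ?_
  refine (Finset.sum_le_card_nsmul _ _ d (fun w _ => hd _)).trans ?_
  rw [smul_eq_mul]
  exact Nat.mul_le_mul_right _ (hd u)

theorem mem_nn {H : SimpleGraph V} {F : Finset (Sym2 V)} (h : Good H F) {u c d v : V}
    (hcd : s(c, d) ∈ F) (h1 : H.Adj u d) (h2 : H.Adj c v) : v ∈ nn H F u := by
  rw [nn, Finset.mem_biUnion]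
  exact ⟨d, mem_nb.2 h1, by rw [h.pa_eq' hcd]; exact mem_nb.2 h2⟩

/-- twice the number of edges of a good set is the number of matched vertices -/
theorem Good.two_mul_card {H : SimpleGraph V} {F : Finset (Sym2 V)} (h : Good H F) :
    2 * F.card = (ma F).card := by
  let K : SimpleGraph V := SimpleGraph.fromEdgeSet (F : Set (Sym2 V))
  have hadj : ∀ a b, K.Adj a b ↔ s(a, b) ∈ F := by
    intro a b
    simp only [K, SimpleGraph.fromEdgeSet_adj, Finset.mem_coe]
    exact ⟨fun hh => hh.1, fun hh => ⟨hh, h.ne a b hh⟩⟩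
  have hE : ∀ i : Fintype K.edgeSet, (@SimpleGraph.edgeFinset V K i).card = F.card := by
    intro i
    congr 1
    ext e
    induction e using Sym2.ind with
    | _ a b => rw [SimpleGraph.mem_edgeFinset, SimpleGraph.mem_edgeSet, hadj]
  have hs := K.sum_degrees_eq_twice_card_edges
  rw [hE] at hs
  rw [← hs, ma, Finset.card_filter]
  refine Finset.sum_congr rfl (fun v _ => ?_)
  by_cases hv : ∃ w, s(v, w) ∈ F
  · rw [if_pos hv]
    obtain ⟨w, hw⟩ := hv
    rw [← SimpleGraph.card_neighborFinset_eq_degree, Finset.card_eq_one]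
    refine ⟨w, ?_⟩
    ext x
    rw [SimpleGraph.mem_neighborFinset, hadj, Finset.mem_singleton]
    exact ⟨fun hx => h.uniq v _ _ hx hw, fun hx => hx ▸ hw⟩
  · rw [if_neg hv, ← SimpleGraph.card_neighborFinset_eq_degree, Finset.card_eq_zero]
    ext x
    rw [SimpleGraph.mem_neighborFinset, hadj]
    simp only [Finset.notMem_empty, iff_false]
    exact fun hx => hv ⟨x, hx⟩

theorem Good.add_edge {H : SimpleGraph V} {F : Finset (Sym2 V)} (h : Good H F) {d : ℕ}
    (hd : ∀ v, (nb H v).card ≤ d) (hU : d * d + d + 2 ≤ (un F).card) :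
    ∃ F', Good H F' ∧ F.card < F'.card := by
  have hne : (un F).Nonempty := by
    rw [← Finset.card_pos]; omega
  obtain ⟨u, hu⟩ := hne
  have hcard : (insert u (nb H u ∪ nn H F u)).card < (un F).card := by
    have h1 := Finset.card_insert_le u (nb H u ∪ nn H F u)
    have h2 := Finset.card_union_le (nb H u) (nn H F u)
    have h3 := hd u
    have h4 := card_nn (F := F) hd u
    omega
  obtain ⟨v, hv, hv'⟩ := Finset.exists_mem_notMem_of_card_lt_card hcard
  rw [Finset.mem_insert, Finset.mem_union] at hv'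
  push Not at hv'
  obtain ⟨hvu, hvn, hvnn⟩ := hv'
  have hg := h.ins (a := u) (b := v) (Ne.symm hvu) (fun hh => hvn (mem_nb.2 hh))
    (mem_un.1 hu) (mem_un.1 hv) (fun c dd hcd hh => hvnn (mem_nn h hcd hh.1 hh.2))
  refine ⟨_, hg, ?_⟩
  rw [Finset.card_insert_of_notMem (mem_un.1 hu v)]
  exact Nat.lt_succ_self _

/-- the switching step -/
theorem Good.switch {H : SimpleGraph V} {F : Finset (Sym2 V)} (h : Good H F) {d : ℕ}
    (hd : ∀ v, (nb H v).card ≤ d) {u v : V} (hu : u ∈ un F) (hv : v ∈ un F) (huv : u ≠ v)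
    (hM : 2 * (d * d) + 3 * d < (ma F).card) :
    ∃ F', Good H F' ∧ F.card < F'.card := by
  have hu' := mem_un.1 hu
  have hv' := mem_un.1 hv
  have hcard : (nb H u ∪ ((nb H v).image (pa F) ∪ (nn H F u ∪ ((nn H F v).image (pa F) ∪
      (nb H u).image (pa F))))).card < (ma F).card := by
    have c1 := Finset.card_union_le (nb H u) ((nb H v).image (pa F) ∪ (nn H F u ∪
      ((nn H F v).image (pa F) ∪ (nb H u).image (pa F))))
    have c2 := Finset.card_union_le ((nb H v).image (pa F)) (nn H F u ∪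
      ((nn H F v).image (pa F) ∪ (nb H u).image (pa F)))
    have c3 := Finset.card_union_le (nn H F u) ((nn H F v).image (pa F) ∪ (nb H u).image (pa F))
    have c4 := Finset.card_union_le ((nn H F v).image (pa F)) ((nb H u).image (pa F))
    have d1 := hd u
    have d2 := hd v
    have d3 := card_nn (F := F) hd u
    have d4 := card_nn (F := F) hd v
    have e1 : ((nb H v).image (pa F)).card ≤ (nb H v).card := Finset.card_image_le
    have e2 : ((nn H F v).image (pa F)).card ≤ (nn H F v).card := Finset.card_image_le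
    have e3 : ((nb H u).image (pa F)).card ≤ (nb H u).card := Finset.card_image_le
    omega
  obtain ⟨x, hx, hxb⟩ := Finset.exists_mem_notMem_of_card_lt_card hcard
  simp only [Finset.mem_union, not_or] at hxb
  obtain ⟨b1, b2, b3, b4, b5⟩ := hxb
  obtain ⟨y, hxy⟩ := mem_ma.1 hx
  have hyx : s(y, x) ∈ F := by rwa [Sym2.eq_swap]
  have hpy : pa F y = x := h.pa_eq' hxy
  have nb2 : ¬ H.Adj v y := fun hh => b2 (Finset.mem_image.2 ⟨y, mem_nb.2 hh, hpy⟩)
  have nb5 : ¬ H.Adj u y := fun hh => b5 (Finset.mem_image.2 ⟨y, mem_nb.2 hh, hpy⟩)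
  have nb4 : y ∉ nn H F v := fun hh => b4 (Finset.mem_image.2 ⟨y, hh, hpy⟩)
  have hxney : x ≠ y := h.ne _ _ hxy
  have hux : u ≠ x := fun e => hu' y (e ▸ hxy)
  have huy : u ≠ y := fun e => hu' x (e ▸ hyx)
  have hvx : v ≠ x := fun e => hv' y (e ▸ hxy)
  have hvy : v ≠ y := fun e => hv' x (e ▸ hyx)
  have hsub : F.erase s(x, y) ⊆ F := Finset.erase_subset _ _
  have hxE : ∀ w, s(x, w) ∉ F.erase s(x, y) := by
    intro w hw
    rw [Finset.mem_erase] at hw
    exact hw.1 (by rw [h.uniq _ _ _ hw.2 hxy])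
  have hyE : ∀ w, s(y, w) ∉ F.erase s(x, y) := by
    intro w hw
    rw [Finset.mem_erase] at hw
    exact hw.1 (by rw [h.uniq _ _ _ hw.2 hyx, Sym2.eq_swap])
  have g1 := (h.mono hsub).ins (a := u) (b := x) hux (fun hh => b1 (mem_nb.2 hh))
    (fun w hw => hu' w (hsub hw)) hxE
    (fun c dd hcd hh => b3 (mem_nn h (hsub hcd) hh.1 hh.2))
  have hvI : ∀ w, s(v, w) ∉ insert s(u, x) (F.erase s(x, y)) := by
    intro w hw
    rw [Finset.mem_insert, Sym2.eq_iff] at hw
    rcases hw with (⟨e, _⟩ | ⟨e, _⟩) | hw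
    · exact huv e.symm
    · exact hvx e
    · exact hv' w (hsub hw)
  have hyI : ∀ w, s(y, w) ∉ insert s(u, x) (F.erase s(x, y)) := by
    intro w hw
    rw [Finset.mem_insert, Sym2.eq_iff] at hw
    rcases hw with (⟨e, _⟩ | ⟨e, _⟩) | hw
    · exact huy e.symm
    · exact hxney e.symm
    · exact hyE w hw
  have g2 := g1.ins (a := v) (b := y) hvy nb2 hvI hyI (by
    rintro c dd hcd ⟨h1, h2⟩
    rw [Finset.mem_insert, Sym2.eq_iff] at hcd
    rcases hcd with (⟨rfl, rfl⟩ | ⟨rfl, rfl⟩) | hcd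
    · exact nb5 h2
    · exact h.nadj _ _ hxy h2
    · exact nb4 (mem_nn h (hsub hcd) h1 h2))
  refine ⟨_, g2, ?_⟩
  rw [Finset.card_insert_of_notMem (hvI y), Finset.card_insert_of_notMem
    (fun hh => hu' x (hsub hh)), Finset.card_erase_of_mem hxy]
  have : 0 < F.card := Finset.card_pos.2 ⟨_, hxy⟩
  omega

/-- a conflict-free matching missing at most one vertex -/
theorem exists_good {H : SimpleGraph V} {d : ℕ} (hd : ∀ v, (nb H v).card ≤ d)
    (hn : 3 * (d * d) + 4 * d + 1 < Fintype.card V) :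
    ∃ F, Good H F ∧ (un F).card ≤ 1 := by
  have hfin : (Finset.univ.filter (fun F : Finset (Sym2 V) => Good H F)).Nonempty :=
    ⟨∅, by
      rw [Finset.mem_filter]
      exact ⟨Finset.mem_univ _, ⟨by simp, by simp, by simp, by simp⟩⟩⟩
  obtain ⟨F, hF, hmax⟩ := Finset.exists_max_image _ (fun F : Finset (Sym2 V) => F.card) hfin
  rw [Finset.mem_filter] at hF
  have hno : ¬ ∃ F', Good H F' ∧ F.card < F'.card := by
    rintro ⟨F', hF', hlt⟩
    have := hmax F' (Finset.mem_filter.2 ⟨Finset.mem_univ _, hF'⟩)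
    omega
  refine ⟨F, hF.2, ?_⟩
  by_contra hc
  push Not at hc
  have hU : (un F).card < d * d + d + 2 := by
    by_contra hh
    exact hno (hF.2.add_edge hd (by omega))
  have hsum := card_un_add F
  obtain ⟨u, hu, v, hv, huv⟩ := Finset.one_lt_card.1 hc
  exact hno (hF.2.switch hd hu hv huv (by omega))

/-- moving the missing vertex to a vertex that can be joined to `z` -/
theorem Good.move {H : SimpleGraph V} {F : Finset (Sym2 V)} (h : Good H F) {d : ℕ}
    (hd : ∀ v, (nb H v).card ≤ d) {w : V} (hw : w ∈ un F) (z : V)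
    (hM : 2 * (d * d) + 3 * d + 1 < (ma F).card) :
    ∃ F' b, Good H F' ∧ F'.card = F.card ∧ (∀ c, s(b, c) ∉ F') ∧ z ≠ b ∧ ¬ H.Adj z b ∧
      ∀ c e, s(c, e) ∈ F' → ¬ (H.Adj b e ∧ H.Adj c z) := by
  have hw' := mem_un.1 hw
  have hcard : (nb H w ∪ (nn H F w ∪ ({pa F z} ∪ ((nb H z).image (pa F) ∪ (nb H z ∪
      (nn H F z).image (pa F)))))).card < (ma F).card := by
    have c1 := Finset.card_union_le (nb H w) (nn H F w ∪ ({pa F z} ∪ ((nb H z).image (pa F) ∪
      (nb H z ∪ (nn H F z).image (pa F)))))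
    have c2 := Finset.card_union_le (nn H F w) ({pa F z} ∪ ((nb H z).image (pa F) ∪
      (nb H z ∪ (nn H F z).image (pa F))))
    have c3 := Finset.card_union_le {pa F z} ((nb H z).image (pa F) ∪
      (nb H z ∪ (nn H F z).image (pa F)))
    have c4 := Finset.card_union_le ((nb H z).image (pa F)) (nb H z ∪ (nn H F z).image (pa F))
    have c5 := Finset.card_union_le (nb H z) ((nn H F z).image (pa F))
    have d1 := hd w
    have d2 := hd z
    have d3 := card_nn (F := F) hd w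
    have d4 := card_nn (F := F) hd z
    have e1 : ((nb H z).image (pa F)).card ≤ (nb H z).card := Finset.card_image_le
    have e2 : ((nn H F z).image (pa F)).card ≤ (nn H F z).card := Finset.card_image_le
    rw [Finset.card_singleton] at c3
    omega
  obtain ⟨a, ha, hab⟩ := Finset.exists_mem_notMem_of_card_lt_card hcard
  simp only [Finset.mem_union, not_or, Finset.mem_singleton] at hab
  obtain ⟨b1, b2, b3, b4, b5, b6⟩ := hab
  obtain ⟨b, hb⟩ := mem_ma.1 ha
  have hba : s(b, a) ∈ F := by rwa [Sym2.eq_swap]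
  have hpb : pa F b = a := h.pa_eq' hb
  have nb4 : ¬ H.Adj z b := fun hh => b4 (Finset.mem_image.2 ⟨b, mem_nb.2 hh, hpb⟩)
  have nb6 : b ∉ nn H F z := fun hh => b6 (Finset.mem_image.2 ⟨b, hh, hpb⟩)
  have hane : a ≠ b := h.ne _ _ hb
  have hwa : w ≠ a := fun e => hw' b (e ▸ hb)
  have hwb : w ≠ b := fun e => hw' a (e ▸ hba)
  have hzb : z ≠ b := fun e => b3 (by rw [e, hpb])
  have hsub : F.erase s(a, b) ⊆ F := Finset.erase_subset _ _
  have haE : ∀ c, s(a, c) ∉ F.erase s(a, b) := by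
    intro c hc
    rw [Finset.mem_erase] at hc
    exact hc.1 (by rw [h.uniq _ _ _ hc.2 hb])
  have hbE : ∀ c, s(b, c) ∉ F.erase s(a, b) := by
    intro c hc
    rw [Finset.mem_erase] at hc
    exact hc.1 (by rw [h.uniq _ _ _ hc.2 hba, Sym2.eq_swap])
  have g1 := (h.mono hsub).ins (a := w) (b := a) hwa (fun hh => b1 (mem_nb.2 hh))
    (fun c hc => hw' c (hsub hc)) haE
    (fun c dd hcd hh => b2 (mem_nn h (hsub hcd) hh.1 hh.2))
  refine ⟨_, b, g1, ?_, ?_, hzb, nb4, ?_⟩
  · rw [Finset.card_insert_of_notMem (fun hh => hw' a (hsub hh)), Finset.card_erase_of_mem hb]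
    have : 0 < F.card := Finset.card_pos.2 ⟨_, hb⟩
    omega
  · intro c hc
    rw [Finset.mem_insert, Sym2.eq_iff] at hc
    rcases hc with (⟨e, _⟩ | ⟨e, _⟩) | hc
    · exact hwb e.symm
    · exact hane e.symm
    · exact hbE c hc
  · rintro c e hce ⟨h1, h2⟩
    rw [Finset.mem_insert, Sym2.eq_iff] at hce
    rcases hce with (⟨rfl, rfl⟩ | ⟨rfl, rfl⟩) | hce
    · exact h.nadj _ _ hb h1.symm
    · exact b5 (mem_nb.2 h2.symm)
    · refine nb6 (mem_nn (c := e) (d := c) h (by rw [Sym2.eq_swap]; exact hsub hce) h2.symm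
        h1.symm)

end Pool.Agent.H289R4
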