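import Mathlib
import Pool.Agent.H289R4.Match

set_option autoImplicit false
set_option linter.unusedSectionVars false

/-!
# Connectivity, and the lower bound on the number of removable edges
-/

namespace Pool.Agent.H289R4

open Classical Finset

/-- The vertex-connectivity of a finite graph: the minimum of `|G| - 1` and of the sizes of the
vertex sets `S` for which `G - S` is disconnected. -/
noncomputable def kappa {V : Type} [Fintype V] (G : SimpleGraph V) : ℕ :=
  sInf (insert (Fintype.card V - 1)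
    {s : ℕ | ∃ S : Finset V, S.card = s ∧ ¬ (G.induce {v : V | v ∉ S}).Preconnected})

/-- `r(G)`: the largest size of an edge set `F` of `G` such that `G - F` is `(k-1)`-connected. -/
noncomputable def removable (k : ℕ) {V : Type} [Fintype V] (G : SimpleGraph V) : ℕ :=
  sSup {m : ℕ | ∃ F : Finset (Sym2 V), (F : Set (Sym2 V)) ⊆ G.edgeSet ∧ F.card = m ∧
    k - 1 ≤ kappa (G.deleteEdges (F : Set (Sym2 V)))}

/-- `f(n,k)`: the minimum of `r(G)` over the `k`-connected graphs `G` of order `n`. -/
noncomputable def f (n k : ℕ) : ℕ :=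
  sInf {m : ℕ | ∃ G : SimpleGraph (Fin n), k ≤ kappa G ∧ removable k G = m}

variable {V : Type} [Fintype V]

/-- the criterion -/
def Crit (k : ℕ) (G : SimpleGraph V) : Prop :=
  ∀ A B : Finset V, A.Nonempty → B.Nonempty → Disjoint A B →
    Fintype.card V < A.card + B.card + k → ∃ a ∈ A, ∃ b ∈ B, G.Adj a b

theorem crit_of_le {G : SimpleGraph V} {k : ℕ} (h : k ≤ kappa G) : Crit k G := by
  rintro A B ⟨a, ha⟩ ⟨b, hb⟩ hAB hc
  by_contra hno
  push Not at hno
  have hS : ((A ∪ B)ᶜ).card < k := by
    rw [Finset.card_compl, Finset.card_union_of_disjoint hAB]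
    have h1 : (A ∪ B).card ≤ Fintype.card V := Finset.card_le_univ _
    rw [Finset.card_union_of_disjoint hAB] at h1
    omega
  have hnot : ¬ (G.induce {v : V | v ∉ (A ∪ B)ᶜ}).Preconnected := by
    intro hp
    have haS : a ∈ {v : V | v ∉ (A ∪ B)ᶜ} := by simp [ha]
    have hbS : b ∈ {v : V | v ∉ (A ∪ B)ᶜ} := by simp [hb]
    obtain ⟨p⟩ := hp ⟨a, haS⟩ ⟨b, hbS⟩
    have key : ∀ x y : {v : V | v ∉ (A ∪ B)ᶜ}, (G.induce {v : V | v ∉ (A ∪ B)ᶜ}).Walk x y →
        (x : V) ∈ A → (y : V) ∈ A := by
      intro x y p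
      induction p with
      | nil => exact fun hx => hx
      | @cons u v w huv _ ih =>
        intro hu
        refine ih ?_
        have hv : (v : V) ∈ A ∪ B := by
          have := v.2
          rw [Set.mem_ofPred_eq, Finset.mem_compl, not_not] at this
          exact this
        rcases Finset.mem_union.1 hv with hv | hv
        · exact hv
        · exact absurd (by simpa using huv) (hno _ hu _ hv)
    exact (Finset.disjoint_left.1 hAB (key _ _ p ha)) hb
  have hle : kappa G ≤ ((A ∪ B)ᶜ).card := by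
    refine Nat.sInf_le (Set.mem_insert_of_mem _ ?_)
    exact ⟨_, rfl, hnot⟩
  omega

theorem le_of_crit {G : SimpleGraph V} {k : ℕ} (hk : k + 1 ≤ Fintype.card V) (h : Crit k G) :
    k ≤ kappa G := by
  have hne : (insert (Fintype.card V - 1)
    {s : ℕ | ∃ S : Finset V, S.card = s ∧ ¬ (G.induce {v : V | v ∉ S}).Preconnected}).Nonempty :=
    ⟨_, Set.mem_insert _ _⟩
  have hmem := Nat.sInf_mem hne
  rw [Set.mem_insert_iff] at hmem
  rcases hmem with hmem | ⟨S, hS, hnp⟩
  · rw [kappa, hmem]
    omega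
  · rw [kappa, ← hS]
    by_contra hlt
    push Not at hlt
    rw [SimpleGraph.Preconnected] at hnp
    push Not at hnp
    obtain ⟨x, y, hxy⟩ := hnp
    let A : Finset V := Finset.univ.filter (fun v => ∃ hv : v ∈ {v : V | v ∉ S},
      (G.induce {v : V | v ∉ S}).Reachable x ⟨v, hv⟩)
    let B : Finset V := Finset.univ.filter (fun v => v ∉ S ∧ v ∉ A)
    have hA : ∀ v, v ∈ A ↔ ∃ hv : v ∈ {v : V | v ∉ S},
      (G.induce {v : V | v ∉ S}).Reachable x ⟨v, hv⟩ := by
      intro v; simp [A]
    have hB : ∀ v, v ∈ B ↔ v ∉ S ∧ v ∉ A := by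
      intro v; simp [B]
    have hxA : (x : V) ∈ A := (hA _).2 ⟨x.2, SimpleGraph.Reachable.refl _⟩
    have hyB : (y : V) ∈ B := by
      rw [hB]
      refine ⟨y.2, fun hh => ?_⟩
      obtain ⟨hv, hr⟩ := (hA _).1 hh
      exact hxy hr
    have hdis : Disjoint A B := by
      rw [Finset.disjoint_left]
      intro v h1 h2
      exact ((hB v).1 h2).2 h1
    have hun : A ∪ B = Sᶜ := by
      ext v
      rw [Finset.mem_union, Finset.mem_compl, hB]
      constructor
      · rintro (h1 | h1)
        · obtain ⟨hv, _⟩ := (hA _).1 h1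
          exact hv
        · exact h1.1
      · intro h1
        by_cases h2 : v ∈ A
        · exact Or.inl h2
        · exact Or.inr ⟨h1, h2⟩
    have hcard : A.card + B.card = Fintype.card V - S.card := by
      rw [← Finset.card_union_of_disjoint hdis, hun, Finset.card_compl]
    have hSle : S.card ≤ Fintype.card V := Finset.card_le_univ _
    obtain ⟨a, ha, b, hb, hadj⟩ := h A B ⟨_, hxA⟩ ⟨_, hyB⟩ hdis (by omega)
    obtain ⟨hv, hr⟩ := (hA _).1 ha
    have hbS := ((hB b).1 hb).1
    refine ((hB b).1 hb).2 ((hA _).2 ⟨hbS, hr.trans ?_⟩)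
    refine SimpleGraph.Adj.reachable ?_
    simpa using hadj

/-- the condition on the complement -/
def Star (j : ℕ) (H : SimpleGraph V) : Prop :=
  ∀ A B : Finset V, A.Nonempty → B.Nonempty → Disjoint A B → j + 1 ≤ A.card + B.card →
    ∃ a ∈ A, ∃ b ∈ B, ¬ H.Adj a b

theorem Star.of_crit {G : SimpleGraph V} {k j : ℕ} (hn : Fintype.card V = k + j)
    (h : Crit k G) : Star j Gᶜ := by
  intro A B hA hB hAB hc
  obtain ⟨a, ha, b, hb, hab⟩ := h A B hA hB hAB (by omega)
  exact ⟨a, ha, b, hb, fun hh => (SimpleGraph.compl_adj _ _ _).1 hh |>.2 hab⟩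

theorem Star.deg {H : SimpleGraph V} {j : ℕ} (h : Star j H) (hj : 1 ≤ j) (v : V) :
    (nb H v).card ≤ j - 1 := by
  by_contra hc
  push Not at hc
  have hne : (nb H v).Nonempty := by
    rw [← Finset.card_pos]; omega
  obtain ⟨a, ha, b, hb, hab⟩ := h {v} (nb H v) ⟨v, Finset.mem_singleton_self v⟩ hne
    (by
      rw [Finset.disjoint_singleton_left]
      exact fun hh => H.irrefl (mem_nb.1 hh)) (by rw [Finset.card_singleton]; omega)
  rw [Finset.mem_singleton] at ha
  subst ha
  exact hab (mem_nb.1 hb)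

theorem claimA_aux {H : SimpleGraph V} {F : Finset (Sym2 V)} {j : ℕ} (h : Star j H)
    (hF : Good H F) {A B : Finset V} (hA : A.Nonempty) (hB : B.Nonempty)
    (hAB : Disjoint A B) (hc : j + 2 ≤ A.card + B.card) (hA2 : 2 ≤ A.card)
    (hno : ∀ a ∈ A, ∀ b ∈ B, H.Adj a b ∨ s(a, b) ∈ F) : False := by
  obtain ⟨a, ha, b, hb, hab⟩ := h A B hA hB hAB (by omega)
  have hab' : s(a, b) ∈ F := (hno a ha b hb).resolve_left hab
  have hcard : (A.erase a).card = A.card - 1 := Finset.card_erase_of_mem ha
  obtain ⟨a', ha', b', hb', hab2⟩ := h (A.erase a) B (by rw [← Finset.card_pos]; omega) hB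
    (Finset.disjoint_of_subset_left (Finset.erase_subset _ _) hAB) (by omega)
  rw [Finset.mem_erase] at ha'
  have hab2' : s(a', b') ∈ F := (hno a' ha'.2 b' hb').resolve_left hab2
  have hab2s : s(b', a') ∈ F := by rwa [Sym2.eq_swap]
  have habs : s(b, a) ∈ F := by rwa [Sym2.eq_swap]
  have hbb : b ≠ b' := by
    rintro rfl
    exact ha'.1 (hF.uniq _ _ _ hab2s habs)
  have h1 : H.Adj a b' := by
    refine (hno a ha b' hb').resolve_right (fun hh => ?_)
    exact hbb (hF.uniq _ _ _ hab' hh)
  have h2 : H.Adj a' b := by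
    refine (hno a' ha'.2 b hb).resolve_right (fun hh => ?_)
    exact hbb (hF.uniq _ _ _ hh hab2')
  exact hF.conf _ _ _ _ hab' hab2' h1 h2

theorem claimA {H : SimpleGraph V} {F : Finset (Sym2 V)} {j : ℕ} (hj : 1 ≤ j) (h : Star j H)
    (hF : Good H F) {A B : Finset V} (hA : A.Nonempty) (hB : B.Nonempty)
    (hAB : Disjoint A B) (hc : j + 2 ≤ A.card + B.card)
    (hno : ∀ a ∈ A, ∀ b ∈ B, H.Adj a b ∨ s(a, b) ∈ F) : False := by
  by_cases hA2 : 2 ≤ A.card
  · exact claimA_aux h hF hA hB hAB hc hA2 hno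
  · refine claimA_aux h hF hB hA hAB.symm (by omega) (by omega) (fun b hb a ha => ?_)
    rcases hno a ha b hb with hh | hh
    · exact Or.inl hh.symm
    · exact Or.inr (by rwa [Sym2.eq_swap])

theorem claimB_aux {H : SimpleGraph V} {F : Finset (Sym2 V)} {j : ℕ} (h : Star j H)
    (hF : Good H F) {z b : V} (hz : (nb H z).card + 2 ≤ j) (hb : ∀ c, s(b, c) ∉ F)
    (hp : ∀ c e, s(c, e) ∈ F → ¬ (H.Adj b e ∧ H.Adj c z))
    {A B : Finset V} (hA : A.Nonempty) (hB : B.Nonempty)
    (hAB : Disjoint A B) (hc : j + 2 ≤ A.card + B.card) (hzA : z ∈ A)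
    (hno : ∀ x ∈ A, ∀ y ∈ B, H.Adj x y ∨ s(x, y) = s(z, b) ∨ s(x, y) ∈ F) : False := by
  have hzB : z ∉ B := Finset.disjoint_left.1 hAB hzA
  have hb' : ∀ c, s(c, b) ∉ F := fun c hh => hb c (by rwa [Sym2.eq_swap])
  by_cases hA2 : 2 ≤ A.card
  · have hcard : (A.erase z).card = A.card - 1 := Finset.card_erase_of_mem hzA
    obtain ⟨a', ha', b', hb1, hab⟩ := h (A.erase z) B (by rw [← Finset.card_pos]; omega) hB
      (Finset.disjoint_of_subset_left (Finset.erase_subset _ _) hAB) (by omega)
    rw [Finset.mem_erase] at ha'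
    have hb1z : b' ≠ z := fun e => hzB (e ▸ hb1)
    have hab' : s(a', b') ∈ F := by
      rcases hno a' ha'.2 b' hb1 with hh | hh | hh
      · exact absurd hh hab
      · rw [Sym2.eq_iff] at hh
        rcases hh with ⟨e, _⟩ | ⟨_, e⟩
        · exact absurd e ha'.1
        · exact absurd e hb1z
      · exact hh
    have hb1b : b' ≠ b := fun e => hb' a' (e ▸ hab')
    have hba' : s(b', a') ∈ F := by rwa [Sym2.eq_swap]
    have hcard' : (A.erase a').card = A.card - 1 := Finset.card_erase_of_mem ha'.2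
    obtain ⟨a2, ha2, b2, hb2, hab2⟩ := h (A.erase a') B (by rw [← Finset.card_pos]; omega) hB
      (Finset.disjoint_of_subset_left (Finset.erase_subset _ _) hAB) (by omega)
    rw [Finset.mem_erase] at ha2
    have hb2z : b2 ≠ z := fun e => hzB (e ▸ hb2)
    rcases hno a2 ha2.2 b2 hb2 with hh | hh | hh
    · exact hab2 hh
    · rw [Sym2.eq_iff] at hh
      rcases hh with ⟨e1, e2⟩ | ⟨_, e⟩
      · subst e1; subst e2
        have k1 : H.Adj a' b2 := by
          rcases hno a' ha'.2 b2 hb2 with hh | hh | hh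
          · exact hh
          · rw [Sym2.eq_iff] at hh
            rcases hh with ⟨e, _⟩ | ⟨_, e⟩
            · exact absurd e ha'.1
            · exact absurd e hb2z
          · exact absurd hh (hb' _)
        have k2 : H.Adj a2 b' := by
          rcases hno a2 ha2.2 b' hb1 with hh | hh | hh
          · exact hh
          · rw [Sym2.eq_iff] at hh
            rcases hh with ⟨_, e⟩ | ⟨_, e⟩
            · exact absurd e hb1b
            · exact absurd e hb1z
          · have h3 : s(b', a2) ∈ F := by rwa [Sym2.eq_swap]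
            exact absurd (hF.uniq _ _ _ h3 hba') ha2.1
        exact hp b' a' hba' ⟨k1.symm, k2.symm⟩
      · exact hb2z e
    · have hbb : b' ≠ b2 := by
        rintro rfl
        have h3 : s(b', a2) ∈ F := by rwa [Sym2.eq_swap]
        exact ha2.1 (hF.uniq _ _ _ h3 hba')
      have k1 : H.Adj a' b2 := by
        rcases hno a' ha'.2 b2 hb2 with hh2 | hh2 | hh2
        · exact hh2
        · rw [Sym2.eq_iff] at hh2
          rcases hh2 with ⟨e, _⟩ | ⟨_, e⟩
          · exact absurd e ha'.1
          · exact absurd e hb2z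
        · exact absurd (hF.uniq _ _ _ hab' hh2) hbb
      have k2 : H.Adj a2 b' := by
        rcases hno a2 ha2.2 b' hb1 with hh2 | hh2 | hh2
        · exact hh2
        · rw [Sym2.eq_iff] at hh2
          rcases hh2 with ⟨_, e⟩ | ⟨_, e⟩
          · exact absurd e hb1b
          · exact absurd e hb1z
        · exact absurd (hF.uniq _ _ _ hh2 hh) hbb
      exact hF.conf _ _ _ _ hh hab' k2 k1
  · have hA1 : A = {z} := by
      obtain ⟨x, hx⟩ := Finset.card_eq_one.1 (show A.card = 1 by
        have := Finset.card_pos.2 hA; omega)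
      rw [hx] at hzA ⊢
      rw [Finset.mem_singleton] at hzA
      rw [hzA]
    have hsub : B ⊆ insert b (insert (pa F z) (nb H z)) := by
      intro y hy
      rw [Finset.mem_insert, Finset.mem_insert]
      rcases hno z hzA y hy with hh | hh | hh
      · exact Or.inr (Or.inr (mem_nb.2 hh))
      · rw [Sym2.eq_iff] at hh
        rcases hh with ⟨_, e⟩ | ⟨_, e⟩
        · exact Or.inl e
        · exact absurd (e ▸ hy) hzB
      · exact Or.inr (Or.inl (hF.pa_eq hh).symm)
    have hle := Finset.card_le_card hsub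
    have h1 := Finset.card_insert_le b (insert (pa F z) (nb H z))
    have h2 := Finset.card_insert_le (pa F z) (nb H z)
    rw [hA1, Finset.card_singleton] at hc
    omega

theorem claimB {H : SimpleGraph V} {F : Finset (Sym2 V)} {j : ℕ} (hj : 1 ≤ j) (h : Star j H)
    (hF : Good H F) {z b : V} (hz : (nb H z).card + 2 ≤ j) (hb : ∀ c, s(b, c) ∉ F)
    (hp : ∀ c e, s(c, e) ∈ F → ¬ (H.Adj b e ∧ H.Adj c z))
    {A B : Finset V} (hA : A.Nonempty) (hB : B.Nonempty)
    (hAB : Disjoint A B) (hc : j + 2 ≤ A.card + B.card)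
    (hno : ∀ x ∈ A, ∀ y ∈ B, H.Adj x y ∨ s(x, y) = s(z, b) ∨ s(x, y) ∈ F) : False := by
  by_cases hzA : z ∈ A
  · exact claimB_aux h hF hz hb hp hA hB hAB hc hzA hno
  · by_cases hzB : z ∈ B
    · refine claimB_aux h hF hz hb hp hB hA hAB.symm (by omega) hzB (fun y hy x hx => ?_)
      rcases hno x hx y hy with hh | hh | hh
      · exact Or.inl hh.symm
      · exact Or.inr (Or.inl (by rw [Sym2.eq_swap]; exact hh))
      · exact Or.inr (Or.inr (by rw [Sym2.eq_swap]; exact hh))
    · refine claimA hj h hF hA hB hAB hc (fun x hx y hy => ?_)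
      rcases hno x hx y hy with hh | hh | hh
      · exact Or.inl hh
      · rw [Sym2.eq_iff] at hh
        rcases hh with ⟨e, _⟩ | ⟨_, e⟩
        · exact absurd (e ▸ hx) hzA
        · exact absurd (e ▸ hy) hzB
      · exact Or.inr hh

/-- parity: a vertex of small degree in the complement -/
theorem exists_small {H : SimpleGraph V} {j : ℕ} (hj : 2 ≤ j) (hd : ∀ v, (nb H v).card ≤ j - 1)
    (hodd : (Fintype.card V * (j - 1)) % 2 = 1) : ∃ z, (nb H z).card + 2 ≤ j := by
  by_contra hno
  push Not at hno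
  have heq : ∀ v, H.degree v = j - 1 := by
    intro v
    have h1 := hd v
    have h2 := hno v
    have h3 : nb H v = H.neighborFinset v := by
      ext w
      rw [mem_nb, SimpleGraph.mem_neighborFinset]
    rw [← SimpleGraph.card_neighborFinset_eq_degree, ← h3]
    omega
  have hs := H.sum_degrees_eq_twice_card_edges
  rw [Finset.sum_congr rfl (fun v _ => heq v), Finset.sum_const, Finset.card_univ,
    smul_eq_mul] at hs
  omega

/-- the lower bound: the edges that can be removed -/
theorem lower {G : SimpleGraph V} {k j : ℕ} (hk : 1 ≤ k) (hj : 1 ≤ j)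
    (hn : Fintype.card V = k + j) (hbig : 3 * j ^ 2 < (k + j) + 2 * j) (hG : k ≤ kappa G) :
    ∃ F : Finset (Sym2 V), (F : Set (Sym2 V)) ⊆ G.edgeSet ∧
      F.card = ((k + j) + (k * (k + j)) % 2) / 2 ∧
      k - 1 ≤ kappa (G.deleteEdges (F : Set (Sym2 V))) := by
  have hcrit := crit_of_le hG
  have hstar : Star j Gᶜ := Star.of_crit hn hcrit
  have hdeg : ∀ v, (nb Gᶜ v).card ≤ j - 1 := hstar.deg hj
  obtain ⟨d, rfl⟩ : ∃ d, j = d + 1 := ⟨j - 1, by omega⟩
  have hd : ∀ v, (nb Gᶜ v).card ≤ d := fun v => (hdeg v).trans (by omega)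
  have hbig' : 3 * (d * d) + 4 * d + 1 < Fintype.card V := by
    rw [hn]; nlinarith
  obtain ⟨F, hF, hun⟩ := exists_good hd hbig'
  have h2F := hF.two_mul_card
  have hsum := card_un_add F
  have gadj : ∀ a b, a ≠ b → ¬ Gᶜ.Adj a b → G.Adj a b := by
    intro a b h1 h2
    by_contra h3
    exact h2 ((SimpleGraph.compl_adj _ _ _).2 ⟨h1, h3⟩)
  by_cases hpar : (k * (k + (d + 1))) % 2 = 0
  · refine ⟨F, ?_, ?_, ?_⟩
    · intro e he
      induction e using Sym2.ind with
      | _ a b => 
        exact gadj a b (hF.ne a b he) (hF.nadj a b he)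
    · rw [hpar]
      omega
    · refine le_of_crit (by omega) ?_
      intro A B hA hB hAB hc
      by_contra hno
      push Not at hno
      refine claimA (by omega) hstar hF hA hB hAB (by omega) (fun a ha b hb => ?_)
      by_cases h1 : Gᶜ.Adj a b
      · exact Or.inl h1
      · right
        have hne : a ≠ b := fun e => Finset.disjoint_left.1 hAB ha (e ▸ hb)
        by_contra h2
        refine hno a ha b hb ?_
        rw [SimpleGraph.deleteEdges_adj]
        exact ⟨gadj a b hne h1, h2⟩
  · have hpar1 : (k * (k + (d + 1))) % 2 = 1 := by omega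
    have hko : k % 2 = 1 := by
      rcases Nat.mod_two_eq_zero_or_one k with h | h
      · rw [Nat.mul_mod, h] at hpar1; omega
      · exact h
    have hno' : (k + (d + 1)) % 2 = 1 := by
      rcases Nat.mod_two_eq_zero_or_one (k + (d + 1)) with h | h
      · rw [Nat.mul_mod, h] at hpar1; omega
      · exact h
    have hdo : d % 2 = 1 := by omega
    obtain ⟨z, hz⟩ := exists_small (H := Gᶜ) (j := d + 1) (by omega) hdeg (by
      rw [hn, Nat.mul_mod, hno', show (d + 1 - 1) = d by omega, hdo])
    have hun1 : (un F).card = 1 := by omega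
    obtain ⟨w, hw⟩ := Finset.card_pos.1 (show 0 < (un F).card by omega)
    obtain ⟨F', b, hF', hcard', hb, hzb, hnzb, hp⟩ := hF.move hd hw z (by nlinarith)
    have hnot : s(z, b) ∉ F' := fun hh => hb z (by rwa [Sym2.eq_swap])
    refine ⟨insert s(z, b) F', ?_, ?_, ?_⟩
    · intro e he
      rw [Finset.coe_insert, Set.mem_insert_iff] at he
      rcases he with rfl | he
      · exact gadj z b hzb hnzb
      · induction e using Sym2.ind with
        | _ x y => exact gadj x y (hF'.ne x y he) (hF'.nadj x y he)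
    · rw [Finset.card_insert_of_notMem hnot, hcard', hpar1]
      omega
    · refine le_of_crit (by omega) ?_
      intro A B hA hB hAB hc
      by_contra hno
      push Not at hno
      refine claimB (by omega) hstar hF' hz hb hp hA hB hAB (by omega) (fun x hx y hy => ?_)
      by_cases h1 : Gᶜ.Adj x y
      · exact Or.inl h1
      · right
        have hne : x ≠ y := fun e => Finset.disjoint_left.1 hAB hx (e ▸ hy)
        by_contra h2
        refine hno x hx y hy ?_
        rw [SimpleGraph.deleteEdges_adj]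
        refine ⟨gadj x y hne h1, fun h3 => h2 ?_⟩
        rw [Finset.coe_insert, Set.mem_insert_iff] at h3
        exact h3

end Pool.Agent.H289R4
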