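import Mathlib
import Pool.Agent.H289R4.Conn

set_option autoImplicit false
set_option linter.unusedSectionVars false

/-!
# Matchings and complete pairs: the uncrossing argument
-/

namespace Pool.Agent.H289R4

open Classical Finset

variable {V : Type} [Fintype V]

/-- every complete pair has at most `m` vertices -/
def Crit2 (m : ℕ) (K : SimpleGraph V) : Prop :=
  ∀ A B : Finset V, A.Nonempty → B.Nonempty → (∀ a ∈ A, ∀ b ∈ B, K.Adj a b) →
    A.card + B.card ≤ m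

theorem Star.crit2 {H : SimpleGraph V} {j : ℕ} (h : Star j H) : Crit2 j H := by
  intro A B hA hB hAB
  by_contra hc
  push Not at hc
  obtain ⟨a, ha, b, hb, hab⟩ := h A B hA hB (by
    rw [Finset.disjoint_left]
    intro x hx hx'
    exact H.irrefl (hAB x hx x hx')) (by omega)
  exact hab (hAB a ha b hb)

/-- a pair that becomes complete after adding the edge `y w` -/
def BadP (j : ℕ) (K : SimpleGraph V) (w y : V) (A B : Finset V) : Prop :=
  y ∈ A ∧ w ∈ B ∧ 2 ≤ A.card ∧ 2 ≤ B.card ∧ j + 2 ≤ A.card + B.card ∧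
    ∀ a ∈ A, ∀ b ∈ B, K.Adj a b ∨ (a = y ∧ b = w)

/-- the vertices that may not be joined to `w` -/
noncomputable def bad (j : ℕ) (K : SimpleGraph V) (w : V) : Finset V :=
  Finset.univ.filter (fun y => ¬ K.Adj y w ∧ ∃ A B, BadP j K w y A B)

theorem card_bad {K : SimpleGraph V} {j : ℕ} (hK : Crit2 (j + 1) K)
    (hdeg : ∀ v, (nb K v).card ≤ j) {w : V} (hw : (nb K w).card ≤ j - 1) :
    (bad j K w).card ≤ j - 1 := by
  have hex : ∀ y, ∃ A B, y ∈ bad j K w → BadP j K w y A B := by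
    intro y
    by_cases hy : y ∈ bad j K w
    · obtain ⟨_, A, B, h⟩ := (Finset.mem_filter.1 hy).2
      exact ⟨A, B, fun _ => h⟩
    · exact ⟨∅, ∅, fun hh => absurd hh hy⟩
  choose SA SB hS using hex
  have hnadj : ∀ y ∈ bad j K w, ¬ K.Adj y w := fun y hy => (Finset.mem_filter.1 hy).2.1
  have f1 : ∀ y ∈ bad j K w, ∀ a ∈ SA y, a ≠ y → K.Adj a w := by
    intro y hy a ha hay
    obtain ⟨h1, h2, h3, h4, h5, h6⟩ := hS y hy
    exact (h6 a ha w h2).resolve_right (fun hh => hay hh.1)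
  have f2 : ∀ y₁ ∈ bad j K w, ∀ y₂ ∈ bad j K w, y₁ ≠ y₂ → y₁ ∉ SA y₂ := by
    intro y₁ h₁ y₂ h₂ hne hmem
    exact hnadj y₁ h₁ (f1 y₂ h₂ y₁ hmem hne)
  have f3 : ∀ y₁ ∈ bad j K w, ∀ y₂ ∈ bad j K w, y₁ ≠ y₂ → ∀ c, c ∈ SA y₁ → c ∈ SA y₂ →
      ∀ b, b ∈ SB y₁ → b ∈ SB y₂ → b ≠ w → False := by
    intro y₁ h₁ y₂ h₂ hne c hc1 hc2 b hb1 hb2 hbw
    obtain ⟨p1, p2, p3, p4, p5, p6⟩ := hS y₁ h₁
    obtain ⟨q1, q2, q3, q4, q5, q6⟩ := hS y₂ h₂
    have e1 := hK (SA y₁ ∩ SA y₂) (SB y₁ ∪ SB y₂) ⟨c, Finset.mem_inter.2 ⟨hc1, hc2⟩⟩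
      ⟨b, Finset.mem_union.2 (Or.inl hb1)⟩ (by
        intro x hx y hy
        rw [Finset.mem_inter] at hx
        rcases Finset.mem_union.1 hy with hy | hy
        · refine (p6 x hx.1 y hy).resolve_right (fun hh => ?_)
          exact f2 y₁ h₁ y₂ h₂ hne (hh.1 ▸ hx.2)
        · refine (q6 x hx.2 y hy).resolve_right (fun hh => ?_)
          exact f2 y₂ h₂ y₁ h₁ hne.symm (hh.1 ▸ hx.1))
    have e2 := hK (SA y₁ ∪ SA y₂) ((SB y₁ ∩ SB y₂).erase w)
      ⟨c, Finset.mem_union.2 (Or.inl hc1)⟩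
      ⟨b, Finset.mem_erase.2 ⟨hbw, Finset.mem_inter.2 ⟨hb1, hb2⟩⟩⟩ (by
        intro x hx y hy
        rw [Finset.mem_erase, Finset.mem_inter] at hy
        rcases Finset.mem_union.1 hx with hx | hx
        · exact (p6 x hx y hy.2.1).resolve_right (fun hh => hy.1 hh.2)
        · exact (q6 x hx y hy.2.2).resolve_right (fun hh => hy.1 hh.2))
    rw [Finset.card_erase_of_mem (Finset.mem_inter.2 ⟨p2, q2⟩)] at e2
    have e3 := Finset.card_union_add_card_inter (SA y₁) (SA y₂)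
    have e4 := Finset.card_union_add_card_inter (SB y₁) (SB y₂)
    omega
  -- the rectangles
  let R : V → Finset (V × V) := fun y => (SA y).erase y ×ˢ (SB y).erase w
  have hdis : (bad j K w : Set V).PairwiseDisjoint R := by
    intro y₁ h₁ y₂ h₂ hne
    rw [Finset.mem_coe] at h₁ h₂
    rw [Function.onFun, Finset.disjoint_left]
    rintro ⟨c, b⟩ hc hb
    rw [Finset.mem_product, Finset.mem_erase, Finset.mem_erase] at hc hb
    exact f3 y₁ h₁ y₂ h₂ hne c hc.1.2 hb.1.2 b hc.2.2 hb.2.2 hc.2.1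
  have hsub : (bad j K w).biUnion R ⊆
      ((nb K w).sigma (fun c => (nb K c).erase w)).image (fun p => (p.1, p.2)) := by
    rintro ⟨c, b⟩ hcb
    obtain ⟨y, hy, hcb⟩ := Finset.mem_biUnion.1 hcb
    rw [Finset.mem_product, Finset.mem_erase, Finset.mem_erase] at hcb
    obtain ⟨p1, p2, p3, p4, p5, p6⟩ := hS y hy
    refine Finset.mem_image.2 ⟨⟨c, b⟩, ?_, rfl⟩
    rw [Finset.mem_sigma, Finset.mem_erase]
    exact ⟨mem_nb.2 (f1 y hy c hcb.1.2 hcb.1.1).symm, hcb.2.1,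
      mem_nb.2 ((p6 c hcb.1.2 b hcb.2.2).resolve_right (fun hh => hcb.1.1 hh.1))⟩
  have hup : ((bad j K w).biUnion R).card ≤ (j - 1) * (j - 1) := by
    refine (Finset.card_le_card hsub).trans (Finset.card_image_le.trans ?_)
    rw [Finset.card_sigma]
    refine (Finset.sum_le_card_nsmul _ _ (j - 1) (fun c hc => ?_)).trans ?_
    · rw [Finset.card_erase_of_mem (mem_nb.2 (mem_nb.1 hc).symm)]
      have := hdeg c
      omega
    · rw [smul_eq_mul]
      exact Nat.mul_le_mul_right _ hw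
  rw [Finset.card_biUnion hdis] at hup
  have hlow : (bad j K w).card * (j - 1) ≤ ∑ y ∈ bad j K w, (R y).card := by
    rw [← smul_eq_mul]
    refine Finset.card_nsmul_le_sum _ _ _ (fun y hy => ?_)
    obtain ⟨p1, p2, p3, p4, p5, p6⟩ := hS y hy
    simp only [R]
    rw [Finset.card_product, Finset.card_erase_of_mem p1, Finset.card_erase_of_mem p2]
    obtain ⟨a, ha⟩ : ∃ a, (SA y).card = a + 2 := ⟨(SA y).card - 2, by omega⟩
    obtain ⟨b, hb⟩ : ∃ b, (SB y).card = b + 2 := ⟨(SB y).card - 2, by omega⟩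
    rw [ha, hb] at p5 ⊢
    have h1 : a + 2 - 1 = a + 1 := by omega
    have h2 : b + 2 - 1 = b + 1 := by omega
    rw [h1, h2]
    have h3 : j - 1 ≤ a + b + 1 := by omega
    nlinarith [Nat.zero_le (a * b)]
  rcases Nat.eq_zero_or_pos (j - 1) with hj0 | hj0
  · have hempty : bad j K w = ∅ := by
      rw [Finset.eq_empty_iff_forall_notMem]
      intro y hy
      obtain ⟨p1, p2, p3, p4, p5, p6⟩ := hS y hy
      obtain ⟨c, hc, hcy⟩ := Finset.exists_mem_ne (show 1 < (SA y).card by omega) y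
      have : 0 < (nb K w).card := Finset.card_pos.2 ⟨c, mem_nb.2 (f1 y hy c hc hcy).symm⟩
      omega
    rw [hempty, Finset.card_empty]
    exact Nat.zero_le _
  · exact Nat.le_of_mul_le_mul_right (hlow.trans hup) hj0

/-- finding an edge of the matching along which one can switch -/
theorem exists_switch {M : Finset V} {π : V → V} (hπ : ∀ x ∈ M, π x ∈ M ∧ π (π x) = x)
    {C D : Finset V} (h : (M ∩ C).card + (M ∩ D).card < M.card) :
    ∃ x ∈ M, x ∉ C ∧ π x ∉ D ∧ ¬ (π x ∈ C ∧ x ∈ D) := by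
  by_contra hno
  push Not at hno
  have hle : (M \ (C ∪ D)).card ≤ ((M ∩ C) ∩ (M ∩ D)).card := by
    refine Finset.card_le_card_of_injOn π ?_ ?_
    · intro x hx
      rw [Finset.mem_coe, Finset.mem_sdiff, Finset.mem_union, not_or] at hx
      obtain ⟨hxM, hxC, hxD⟩ := hx
      obtain ⟨hπM, hππ⟩ := hπ x hxM
      have h1 : π x ∈ D := by
        by_contra h1
        exact hxD (hno x hxM hxC h1).2
      have h2 : π x ∈ C := by
        by_contra h2
        have := hno (π x) hπM h2 (by rw [hππ]; exact hxD)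
        rw [hππ] at this
        exact hxC this.1
      rw [Finset.mem_coe, Finset.mem_inter, Finset.mem_inter, Finset.mem_inter]
      exact ⟨⟨hπM, h2⟩, ⟨hπM, h1⟩⟩
    · intro x hx y hy hxy
      rw [Finset.mem_coe, Finset.mem_sdiff] at hx hy
      rw [← (hπ x hx.1).2, ← (hπ y hy.1).2, hxy]
  have h1 := Finset.card_union_add_card_inter (M ∩ C) (M ∩ D)
  have h2 : (M \ (C ∪ D)).card + (M ∩ (C ∪ D)).card = M.card :=
    Finset.card_sdiff_add_card_inter M (C ∪ D)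
  rw [Finset.inter_union_distrib_left] at h2
  omega

theorem pair_one {K : SimpleGraph V} {j : ℕ} (hK : Crit2 (j + 1) K) {u x : V}
    (hx : x ∉ bad j K u) (hux : ¬ K.Adj x u) {A B : Finset V} (hA : 2 ≤ A.card)
    (hB : 2 ≤ B.card) (hc : j + 2 ≤ A.card + B.card) (hdis : ∀ v ∈ A, v ∉ B)
    (hAB : ∀ a ∈ A, ∀ b ∈ B, K.Adj a b ∨ s(a, b) = s(u, x)) : False := by
  by_cases hall : ∀ a ∈ A, ∀ b ∈ B, K.Adj a b
  · have := hK A B (Finset.card_pos.1 (by omega)) (Finset.card_pos.1 (by omega)) hall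
    omega
  · push Not at hall
    obtain ⟨a, ha, b, hb, hab⟩ := hall
    have h1 := (hAB a ha b hb).resolve_left hab
    rw [Sym2.eq_iff] at h1
    rcases h1 with ⟨rfl, rfl⟩ | ⟨rfl, rfl⟩
    · refine hx (Finset.mem_filter.2 ⟨Finset.mem_univ _, hux, B, A, hb, ha, hB, hA, by omega,
        fun p hp q hq => ?_⟩)
      rcases hAB q hq p hp with h2 | h2
      · exact Or.inl h2.symm
      · rw [Sym2.eq_iff] at h2
        rcases h2 with ⟨e1, e2⟩ | ⟨e1, e2⟩
        · exact Or.inr ⟨e2, e1⟩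
        · exact absurd hb (e1 ▸ hdis _ hq)
    · refine hx (Finset.mem_filter.2 ⟨Finset.mem_univ _, hux, A, B, ha, hb, hA, hB, by omega,
        fun p hp q hq => ?_⟩)
      rcases hAB p hp q hq with h2 | h2
      · exact Or.inl h2
      · rw [Sym2.eq_iff] at h2
        rcases h2 with ⟨e1, e2⟩ | ⟨e1, e2⟩
        · exact absurd hb (e1 ▸ hdis _ hp)
        · exact Or.inr ⟨e1, e2⟩

theorem two_le {K' : SimpleGraph V} {j : ℕ} (hdeg : ∀ v, (nb K' v).card ≤ j) {A B : Finset V}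
    (hA : A.Nonempty) (hAB : ∀ a ∈ A, ∀ b ∈ B, K'.Adj a b) (hc : j + 2 ≤ A.card + B.card) :
    2 ≤ A.card := by
  obtain ⟨a, ha⟩ := hA
  have h1 : B ⊆ nb K' a := fun b hb => mem_nb.2 (hAB a ha b hb)
  have h2 := Finset.card_le_card h1
  have h3 := hdeg a
  omega

theorem one_new {K K' : SimpleGraph V} {j : ℕ} (hK : Crit2 (j + 1) K)
    (hdeg : ∀ v, (nb K' v).card ≤ j) {u x : V}
    (hK' : ∀ p q, K'.Adj p q → K.Adj p q ∨ s(p, q) = s(u, x))
    (hx : x ∉ bad j K u) (hux : ¬ K.Adj x u) : Crit2 (j + 1) K' := by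
  intro A B hA hB hAB
  by_contra hc
  push Not at hc
  have h2A := two_le hdeg hA hAB (by omega)
  have h2B := two_le hdeg hB (fun b hb a ha => (hAB a ha b hb).symm) (by omega)
  exact pair_one hK hx hux h2A h2B (by omega) (fun v hv hv' => K'.irrefl (hAB v hv v hv'))
    (fun a ha b hb => hK' a b (hAB a ha b hb))

theorem two_new {K K' : SimpleGraph V} {j : ℕ} (hK : Crit2 (j + 1) K)
    (hdeg : ∀ v, (nb K' v).card ≤ j) {u x v y : V}
    (hK' : ∀ p q, K'.Adj p q → K.Adj p q ∨ s(p, q) = s(u, x) ∨ s(p, q) = s(v, y))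
    (hx : x ∉ bad j K u) (hux : ¬ K.Adj x u) (hy : y ∉ bad j K v) (hvy : ¬ K.Adj y v)
    (h1 : ¬ (K'.Adj u y ∧ K'.Adj v x)) (h2 : ¬ K'.Adj x y) : Crit2 (j + 1) K' := by
  intro A B hA hB hAB
  by_contra hc
  push Not at hc
  have h2A := two_le hdeg hA hAB (by omega)
  have h2B := two_le hdeg hB (fun b hb a ha => (hAB a ha b hb).symm) (by omega)
  have hdis : ∀ v ∈ A, v ∉ B := fun v hv hv' => K'.irrefl (hAB v hv v hv')
  by_cases c1 : ∃ a ∈ A, ∃ b ∈ B, s(a, b) = s(u, x)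
  · by_cases c2 : ∃ a ∈ A, ∃ b ∈ B, s(a, b) = s(v, y)
    · obtain ⟨a, ha, b, hb, hab⟩ := c1
      obtain ⟨c, hc', d, hd, hcd⟩ := c2
      rw [Sym2.eq_iff] at hab hcd
      rcases hab with ⟨rfl, rfl⟩ | ⟨rfl, rfl⟩ <;> rcases hcd with ⟨rfl, rfl⟩ | ⟨rfl, rfl⟩
      · exact h1 ⟨hAB _ ha _ hd, hAB _ hc' _ hb⟩
      · exact h2 (hAB _ hc' _ hb).symm
      · exact h2 (hAB _ ha _ hd)
      · exact h1 ⟨(hAB _ hc' _ hb).symm, (hAB _ ha _ hd).symm⟩
    · push Not at c2
      exact pair_one hK hx hux h2A h2B (by omega) hdis (fun a ha b hb => by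
        rcases hK' a b (hAB a ha b hb) with h | h | h
        · exact Or.inl h
        · exact Or.inr h
        · exact absurd h (c2 a ha b hb))
  · push Not at c1
    exact pair_one hK hy hvy h2A h2B (by omega) hdis (fun a ha b hb => by
      rcases hK' a b (hAB a ha b hb) with h | h | h
      · exact Or.inl h
      · exact absurd h (c1 a ha b hb)
      · exact Or.inr h)

end Pool.Agent.H289R4
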