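import Mathlib
import Pool.Agent.H289R4.Match2

set_option autoImplicit false
set_option linter.unusedSectionVars false

/-!
# Removable edges in the linear range
-/

namespace Pool.Agent.H289R4

open Classical Finset

variable {V : Type} [Fintype V]

/-- `H` together with the pairs in `F` -/
def kk (H : SimpleGraph V) (F : Finset (Sym2 V)) : SimpleGraph V where
  Adj a b := a ≠ b ∧ (H.Adj a b ∨ s(a, b) ∈ F)
  symm := ⟨by
    rintro a b ⟨h1, h2 | h2⟩
    · exact ⟨h1.symm, Or.inl h2.symm⟩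
    · exact ⟨h1.symm, Or.inr (by rwa [Sym2.eq_swap])⟩⟩
  loopless := ⟨fun a h => h.1 rfl⟩

theorem kk_adj {H : SimpleGraph V} {F : Finset (Sym2 V)} {a b : V} :
    (kk H F).Adj a b ↔ a ≠ b ∧ (H.Adj a b ∨ s(a, b) ∈ F) := Iff.rfl

/-- a matching `F` of non-edges of `H` for which `H + F` has no large complete pair -/
structure SG (j : ℕ) (H : SimpleGraph V) (F : Finset (Sym2 V)) : Prop where
  g : Good (⊥ : SimpleGraph V) F
  nadj : ∀ a b, s(a, b) ∈ F → ¬ H.Adj a b
  cr : Crit2 (j + 1) (kk H F)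

theorem nb_kk_sub {H : SimpleGraph V} {F : Finset (Sym2 V)} (g : Good (⊥ : SimpleGraph V) F)
    (v : V) : nb (kk H F) v ⊆ insert (pa F v) (nb H v) := by
  intro b hb
  rw [mem_nb, kk_adj] at hb
  rw [Finset.mem_insert, mem_nb]
  rcases hb.2 with h | h
  · exact Or.inr h
  · exact Or.inl (g.pa_eq h).symm

theorem nb_kk_le {H : SimpleGraph V} {F : Finset (Sym2 V)} (g : Good (⊥ : SimpleGraph V) F)
    (v : V) : (nb (kk H F) v).card ≤ (nb H v).card + 1 :=
  (Finset.card_le_card (nb_kk_sub g v)).trans (Finset.card_insert_le _ _)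

theorem nb_kk_un {H : SimpleGraph V} {F : Finset (Sym2 V)} {v : V} (hv : ∀ w, s(v, w) ∉ F) :
    (nb (kk H F) v).card ≤ (nb H v).card := by
  refine Finset.card_le_card (fun b hb => ?_)
  rw [mem_nb, kk_adj] at hb
  rw [mem_nb]
  exact hb.2.resolve_right (hv b)

theorem Good.ins' {F : Finset (Sym2 V)} (h : Good (⊥ : SimpleGraph V) F) {a b : V}
    (hne : a ≠ b) (ha : ∀ w, s(a, w) ∉ F) (hb : ∀ w, s(b, w) ∉ F) :
    Good (⊥ : SimpleGraph V) (insert s(a, b) F) :=
  h.ins hne (fun hh => hh) ha hb (fun _ _ _ hh => hh.1)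

theorem Good.er {H : SimpleGraph V} {F : Finset (Sym2 V)} (h : Good H F) {x y : V}
    (hxy : s(x, y) ∈ F) : (∀ w, s(x, w) ∉ F.erase s(x, y)) ∧ (∀ w, s(y, w) ∉ F.erase s(x, y)) := by
  have hyx : s(y, x) ∈ F := by rwa [Sym2.eq_swap]
  constructor
  · intro w hw
    rw [Finset.mem_erase] at hw
    exact hw.1 (by rw [h.uniq _ _ _ hw.2 hxy])
  · intro w hw
    rw [Finset.mem_erase] at hw
    exact hw.1 (by rw [h.uniq _ _ _ hw.2 hyx, Sym2.eq_swap])

/-- adding an edge -/
theorem SG.add {H : SimpleGraph V} {F : Finset (Sym2 V)} {j : ℕ} (h : SG j H F) (hj : 1 ≤ j)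
    (hd : ∀ v, (nb H v).card ≤ j - 1) {u x : V} (hux : u ≠ x) (hu : u ∈ un F) (hx : x ∈ un F)
    (hn : ¬ H.Adj u x) (hb : x ∉ bad j (kk H F) u) : SG j H (insert s(u, x) F) := by
  have g' := h.g.ins' hux (mem_un.1 hu) (mem_un.1 hx)
  refine ⟨g', ?_, ?_⟩
  · intro a b hab
    rw [Finset.mem_insert, Sym2.eq_iff] at hab
    rcases hab with (⟨rfl, rfl⟩ | ⟨rfl, rfl⟩) | hab
    · exact hn
    · exact fun hh => hn hh.symm
    · exact h.nadj _ _ hab
  · refine one_new (K := kk H F) (u := u) (x := x) h.cr (fun v => ?_) ?_ hb ?_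
    · have := nb_kk_le (H := H) g' v
      have := hd v
      omega
    · rintro p q ⟨h1, h2 | h2⟩
      · exact Or.inl ⟨h1, Or.inl h2⟩
      · rcases Finset.mem_insert.1 h2 with h3 | h3
        · exact Or.inr h3
        · exact Or.inl ⟨h1, Or.inr h3⟩
    · rintro ⟨h1, h2 | h2⟩
      · exact hn h2.symm
      · exact mem_un.1 hx _ h2

/-- replacing the edge `x y` by `u x` -/
theorem SG.mv {H : SimpleGraph V} {F : Finset (Sym2 V)} {j : ℕ} (h : SG j H F) (hj : 1 ≤ j)
    (hd : ∀ v, (nb H v).card ≤ j - 1) {u x y : V} (hu : u ∈ un F) (hxy : s(x, y) ∈ F)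
    (hn : ¬ H.Adj u x) (hb : x ∉ bad j (kk H F) u) :
    SG j H (insert s(u, x) (F.erase s(x, y))) ∧ y ∈ un (insert s(u, x) (F.erase s(x, y))) ∧
      (insert s(u, x) (F.erase s(x, y))).card = F.card := by
  have hu' := mem_un.1 hu
  have hyx : s(y, x) ∈ F := by rwa [Sym2.eq_swap]
  have hux : u ≠ x := fun e => hu' y (e ▸ hxy)
  have huy : u ≠ y := fun e => hu' x (e ▸ hyx)
  have hxny : x ≠ y := h.g.ne _ _ hxy
  have hsub : F.erase s(x, y) ⊆ F := Finset.erase_subset _ _
  obtain ⟨hxE, hyE⟩ := h.g.er hxy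
  have g' := (h.g.mono hsub).ins' hux (fun w hw => hu' w (hsub hw)) hxE
  refine ⟨⟨g', ?_, ?_⟩, ?_, ?_⟩
  · intro a b hab
    rw [Finset.mem_insert, Sym2.eq_iff] at hab
    rcases hab with (⟨rfl, rfl⟩ | ⟨rfl, rfl⟩) | hab
    · exact hn
    · exact fun hh => hn hh.symm
    · exact h.nadj _ _ (hsub hab)
  · refine one_new (K := kk H F) (u := u) (x := x) h.cr (fun v => ?_) ?_ hb ?_
    · have := nb_kk_le (H := H) g' v
      have := hd v
      omega
    · rintro p q ⟨h1, h2 | h2⟩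
      · exact Or.inl ⟨h1, Or.inl h2⟩
      · rcases Finset.mem_insert.1 h2 with h3 | h3
        · exact Or.inr h3
        · exact Or.inl ⟨h1, Or.inr (hsub h3)⟩
    · rintro ⟨h1, h2 | h2⟩
      · exact hn h2.symm
      · exact hu' x (by rwa [Sym2.eq_swap])
  · rw [mem_un]
    intro w hw
    rw [Finset.mem_insert, Sym2.eq_iff] at hw
    rcases hw with (⟨e, _⟩ | ⟨e, _⟩) | hw
    · exact huy e.symm
    · exact hxny e.symm
    · exact hyE w hw
  · rw [Finset.card_insert_of_notMem (fun hh => hu' x (hsub hh)), Finset.card_erase_of_mem hxy]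
    have : 0 < F.card := Finset.card_pos.2 ⟨_, hxy⟩
    omega

/-- replacing the edge `x y` by `u x` and `v y`, where `v` may be matched, provided `v` has small
degree -/
theorem two_crit {H : SimpleGraph V} {F : Finset (Sym2 V)} {j : ℕ} (h : SG j H F)
    {u v x y : V} (hu : u ∈ un F) (huv : u ≠ v)
    (hxy : s(x, y) ∈ F) (hn : ¬ H.Adj u x) (hb : x ∉ bad j (kk H F) u)
    (hn2 : ¬ H.Adj v y) (hb2 : y ∉ bad j (kk H F) v) (hn3 : ¬ (H.Adj u y ∧ H.Adj v x))
    (hvx : v ≠ x) (hvy : v ≠ y)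
    (hdeg : ∀ w, (nb (kk H (insert s(v, y) (insert s(u, x) (F.erase s(x, y))))) w).card ≤ j) :
    Crit2 (j + 1) (kk H (insert s(v, y) (insert s(u, x) (F.erase s(x, y))))) := by
  have hu' := mem_un.1 hu
  have hyx : s(y, x) ∈ F := by rwa [Sym2.eq_swap]
  have hux : u ≠ x := fun e => hu' y (e ▸ hxy)
  have huy : u ≠ y := fun e => hu' x (e ▸ hyx)
  have hxny : x ≠ y := h.g.ne _ _ hxy
  have hsub : F.erase s(x, y) ⊆ F := Finset.erase_subset _ _
  refine two_new (K := kk H F) (u := u) (x := x) (v := v) (y := y) h.cr hdeg ?_ hb ?_ hb2 ?_ ?_ ?_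
  · rintro p q ⟨h1, h2 | h2⟩
    · exact Or.inl ⟨h1, Or.inl h2⟩
    · rcases Finset.mem_insert.1 h2 with h3 | h3
      · exact Or.inr (Or.inr h3)
      · rcases Finset.mem_insert.1 h3 with h3 | h3
        · exact Or.inr (Or.inl h3)
        · exact Or.inl ⟨h1, Or.inr (hsub h3)⟩
  · rintro ⟨h1, h2 | h2⟩
    · exact hn h2.symm
    · exact hu' x (by rwa [Sym2.eq_swap])
  · rintro ⟨h1, h2 | h2⟩
    · exact hn2 h2.symm
    · exact hvx (h.g.uniq _ _ _ h2 hyx)
  · rintro ⟨⟨_, k1⟩, ⟨_, k2⟩⟩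
    refine hn3 ⟨k1.resolve_right (fun h2 => ?_), k2.resolve_right (fun h2 => ?_)⟩
    · rw [Finset.mem_insert, Finset.mem_insert, Sym2.eq_iff, Sym2.eq_iff] at h2
      rcases h2 with (⟨e, _⟩ | ⟨e, _⟩) | (⟨_, e⟩ | ⟨e, _⟩) | h2
      · exact huv e
      · exact huy e
      · exact hxny e.symm
      · exact hux e
      · exact hu' _ (hsub h2)
    · rw [Finset.mem_insert, Finset.mem_insert, Sym2.eq_iff, Sym2.eq_iff] at h2
      rcases h2 with (⟨_, e⟩ | ⟨e, _⟩) | (⟨e, _⟩ | ⟨e, _⟩) | h2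
      · exact hxny e
      · exact hvy e
      · exact huv e.symm
      · exact hvx e
      · have h3 : s(x, v) ∈ F := by
          have := hsub h2
          rwa [Sym2.eq_swap]
        exact hvy (h.g.uniq _ _ _ h3 hxy)
  · rintro ⟨h1, h2 | h2⟩
    · exact h.nadj _ _ hxy h2
    · rw [Finset.mem_insert, Finset.mem_insert, Sym2.eq_iff, Sym2.eq_iff] at h2
      rcases h2 with (⟨e, _⟩ | ⟨e, _⟩) | (⟨e, _⟩ | ⟨_, e⟩) | h2
      · exact hvx e.symm
      · exact hxny e
      · exact hux e.symm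
      · exact huy e.symm
      · exact (Finset.mem_erase.1 h2).1 rfl

/-- the forbidden partners of `u` -/
noncomputable def cc (j : ℕ) (H : SimpleGraph V) (F : Finset (Sym2 V)) (u : V) : Finset V :=
  nb H u ∪ bad j (kk H F) u

theorem not_cc {H : SimpleGraph V} {F : Finset (Sym2 V)} {j : ℕ} {u x : V}
    (h : x ∉ cc j H F u) : ¬ H.Adj u x ∧ x ∉ bad j (kk H F) u := by
  rw [cc, Finset.mem_union, not_or, mem_nb] at h
  exact h

theorem cc_of_adj {H : SimpleGraph V} {F : Finset (Sym2 V)} {j : ℕ} {u x : V}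
    (h : H.Adj u x) : x ∈ cc j H F u :=
  Finset.mem_union.2 (Or.inl (mem_nb.2 h))

theorem pa_inv {H : SimpleGraph V} {F : Finset (Sym2 V)} (h : Good H F) :
    ∀ x ∈ ma F, pa F x ∈ ma F ∧ pa F (pa F x) = x := by
  intro x hx
  have h1 := pa_spec (mem_ma.1 hx)
  have h2 : s(pa F x, x) ∈ F := by rwa [Sym2.eq_swap]
  exact ⟨mem_ma.2 ⟨x, h2⟩, h.pa_eq h2⟩

/-- the switching step -/
theorem SG.switch {H : SimpleGraph V} {F : Finset (Sym2 V)} {j : ℕ} (h : SG j H F) (hj : 1 ≤ j)
    (hd : ∀ v, (nb H v).card ≤ j - 1) {u v : V} (hu : u ∈ un F) (hv : v ∈ un F) (huv : u ≠ v)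
    (hM : (ma F ∩ cc j H F u).card + (ma F ∩ cc j H F v).card < (ma F).card) :
    ∃ F', SG j H F' ∧ F.card < F'.card := by
  have hu' := mem_un.1 hu
  have hv' := mem_un.1 hv
  obtain ⟨x, hx, hxu, hxv, hsp⟩ := exists_switch (pa_inv h.g) hM
  obtain ⟨y, hxy⟩ := mem_ma.1 hx
  have hyx : s(y, x) ∈ F := by rwa [Sym2.eq_swap]
  have hpx : pa F x = y := h.g.pa_eq hxy
  rw [hpx] at hxv hsp
  obtain ⟨b1, b2⟩ := not_cc hxu
  obtain ⟨b5, b6⟩ := not_cc hxv
  have b7 : ¬ (H.Adj u y ∧ H.Adj v x) := fun hh => hsp ⟨cc_of_adj hh.1, cc_of_adj hh.2⟩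
  have hxney : x ≠ y := h.g.ne _ _ hxy
  have hux : u ≠ x := fun e => hu' y (e ▸ hxy)
  have huy : u ≠ y := fun e => hu' x (e ▸ hyx)
  have hvx : v ≠ x := fun e => hv' y (e ▸ hxy)
  have hvy : v ≠ y := fun e => hv' x (e ▸ hyx)
  have hsub : F.erase s(x, y) ⊆ F := Finset.erase_subset _ _
  obtain ⟨hmv, hyun, hcd⟩ := h.mv hj hd hu hxy b1 b2
  have hvI : ∀ w, s(v, w) ∉ insert s(u, x) (F.erase s(x, y)) := by
    intro w hw
    rw [Finset.mem_insert, Sym2.eq_iff] at hw
    rcases hw with (⟨e, _⟩ | ⟨e, _⟩) | hw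
    · exact huv e.symm
    · exact hvx e
    · exact hv' w (hsub hw)
  have g2 := hmv.g.ins' hvy hvI (mem_un.1 hyun)
  refine ⟨_, ⟨g2, ?_, ?_⟩, ?_⟩
  · intro a b hab
    rw [Finset.mem_insert, Sym2.eq_iff] at hab
    rcases hab with (⟨rfl, rfl⟩ | ⟨rfl, rfl⟩) | hab
    · exact b5
    · exact fun hh => b5 hh.symm
    · exact hmv.nadj _ _ hab
  · refine two_crit h hu huv hxy b1 b2 b5 b6 b7 hvx hvy (fun w => ?_)
    have := nb_kk_le (H := H) g2 w
    have := hd w
    omega
  · rw [Finset.card_insert_of_notMem (hvI y), hcd]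
    exact Nat.lt_succ_self _

theorem SG.card_cc {H : SimpleGraph V} {F : Finset (Sym2 V)} {j : ℕ} (h : SG j H F)
    (hj : 1 ≤ j) (hd : ∀ v, (nb H v).card ≤ j - 1) {u : V}
    (hu : (nb (kk H F) u).card ≤ j - 1) :
    (cc j H F u).card ≤ (nb H u).card + (j - 1) := by
  have hdK : ∀ w, (nb (kk H F) w).card ≤ j := fun w => by
    have := nb_kk_le (H := H) h.g w
    have := hd w
    omega
  have := card_bad h.cr hdK hu
  have := Finset.card_union_le (nb H u) (bad j (kk H F) u)
  rw [cc]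
  omega

/-- a good matching missing at most one vertex -/
theorem exists_sg {H : SimpleGraph V} {j : ℕ} (hj : 1 ≤ j) (hH : Star j H)
    (hn : 4 * j ≤ Fintype.card V + 3) : ∃ F, SG j H F ∧ (un F).card ≤ 1 := by
  have hd : ∀ v, (nb H v).card ≤ j - 1 := hH.deg hj
  have hfin : (Finset.univ.filter (fun F : Finset (Sym2 V) => SG j H F)).Nonempty := by
    refine ⟨∅, Finset.mem_filter.2 ⟨Finset.mem_univ _, ⟨⟨by simp, by simp, by simp, by simp⟩,
      by simp, ?_⟩⟩⟩
    intro A B hA hB hAB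
    have := hH.crit2 A B hA hB (fun a ha b hb => by
      rcases (hAB a ha b hb).2 with h | h
      · exact h
      · exact absurd h (Finset.notMem_empty _))
    omega
  obtain ⟨F, hF, hmax⟩ := Finset.exists_max_image _ (fun F : Finset (Sym2 V) => F.card) hfin
  rw [Finset.mem_filter] at hF
  have hno : ¬ ∃ F', SG j H F' ∧ F.card < F'.card := by
    rintro ⟨F', hF', hlt⟩
    have := hmax F' (Finset.mem_filter.2 ⟨Finset.mem_univ _, hF'⟩)
    omega
  refine ⟨F, hF.2, ?_⟩
  by_contra hc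
  push Not at hc
  obtain ⟨u, hu, v, hv, huv⟩ := Finset.one_lt_card.1 hc
  have hsum := card_un_add F
  have key : ∀ a ∈ un F, (ma F ∩ cc j H F a).card + (un F).card ≤ 2 * (j - 1) + 1 := by
    intro a ha
    have h1 : (un F).erase a ⊆ cc j H F a := by
      intro x hx
      rw [Finset.mem_erase] at hx
      by_contra hxc
      obtain ⟨h2, h3⟩ := not_cc hxc
      have hg := hF.2.add hj hd (Ne.symm hx.1) ha hx.2 h2 h3
      refine hno ⟨_, hg, ?_⟩
      rw [Finset.card_insert_of_notMem (mem_un.1 ha x)]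
      exact Nat.lt_succ_self _
    have h4 : Disjoint ((un F).erase a) (ma F ∩ cc j H F a) := by
      rw [Finset.disjoint_left]
      intro x hx hx'
      rw [Finset.mem_erase] at hx
      rw [Finset.mem_inter] at hx'
      obtain ⟨y, hy⟩ := mem_ma.1 hx'.1
      exact mem_un.1 hx.2 y hy
    have h5 := Finset.card_le_card (Finset.union_subset h1
      (Finset.inter_subset_right (s₁ := ma F) (s₂ := cc j H F a)))
    rw [Finset.card_union_of_disjoint h4, Finset.card_erase_of_mem ha] at h5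
    have h6 := hF.2.card_cc hj hd ((nb_kk_un (H := H) (mem_un.1 ha)).trans (hd a))
    have h7 := hd a
    have h8 : 0 < (un F).card := Finset.card_pos.2 ⟨a, ha⟩
    omega
  have k1 := key u hu
  have k2 := key v hv
  exact hno (hF.2.switch hj hd hu hv huv (by omega))

/-- the odd case: one more edge at a vertex `z` of small degree -/
theorem exists_odd {H : SimpleGraph V} {F : Finset (Sym2 V)} {j : ℕ} (h : SG j H F) (hj : 1 ≤ j)
    (hd : ∀ v, (nb H v).card ≤ j - 1) {w z : V} (hw : w ∈ un F) (hwz : w ≠ z)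
    (hz : (nb H z).card + 2 ≤ j) (hM : 4 * j < (ma F).card + 3) :
    ∃ F' : Finset (Sym2 V), (∀ a b, s(a, b) ∈ F' → a ≠ b ∧ ¬ H.Adj a b) ∧
      F'.card = F.card + 1 ∧ Crit2 (j + 1) (kk H F') := by
  have hw' := mem_un.1 hw
  have c1 := h.card_cc hj hd ((nb_kk_un (H := H) hw').trans (hd w))
  have c2 := h.card_cc hj hd (u := z) (by
    have := nb_kk_le (H := H) h.g z
    omega)
  have hinv := pa_inv h.g
  have hπ : ∀ x ∈ ((ma F).erase z).erase (pa F z),
      pa F x ∈ ((ma F).erase z).erase (pa F z) ∧ pa F (pa F x) = x := by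
    intro x hx
    rw [Finset.mem_erase, Finset.mem_erase] at hx
    obtain ⟨h1, h2, h3⟩ := hx
    obtain ⟨h4, h5⟩ := hinv x h3
    refine ⟨?_, h5⟩
    rw [Finset.mem_erase, Finset.mem_erase]
    refine ⟨fun e => h2 ?_, fun e => h1 ?_, h4⟩
    · by_cases hzm : z ∈ ma F
      · rw [← h5, e, (hinv z hzm).2]
      · have hzz : pa F z = z := by
          rw [pa, dif_neg (fun hh => hzm (mem_ma.2 hh))]
        rw [hzz] at e
        exact absurd (e ▸ h4) hzm
    · rw [← h5, e]
  obtain ⟨a, ha, hab1, hab2, hsp⟩ := exists_switch hπ (C := cc j H F w) (D := cc j H F z) (by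
    have e1 := Finset.card_le_card
      (Finset.inter_subset_right (s₁ := ((ma F).erase z).erase (pa F z)) (s₂ := cc j H F w))
    have e2 := Finset.card_le_card
      (Finset.inter_subset_right (s₁ := ((ma F).erase z).erase (pa F z)) (s₂ := cc j H F z))
    have e3 := Finset.pred_card_le_card_erase (s := (ma F).erase z) (a := pa F z)
    have e4 := Finset.pred_card_le_card_erase (s := ma F) (a := z)
    have e5 := hd w
    omega)
  rw [Finset.mem_erase, Finset.mem_erase] at ha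
  obtain ⟨ha1, b0, ha⟩ := ha
  obtain ⟨b, hxy⟩ := mem_ma.1 ha
  have hyx : s(b, a) ∈ F := by rwa [Sym2.eq_swap]
  have hpx : pa F a = b := h.g.pa_eq hxy
  rw [hpx] at hab2 hsp
  obtain ⟨b1, b2⟩ := not_cc hab1
  obtain ⟨b5, b6⟩ := not_cc hab2
  have b7 : ¬ (H.Adj w b ∧ H.Adj z a) := fun hh => hsp ⟨cc_of_adj hh.1, cc_of_adj hh.2⟩
  have b8 : ¬ b = z := by
    intro e
    apply ha1
    rw [← e]
    exact (h.g.pa_eq hyx).symm
  have hsub : F.erase s(a, b) ⊆ F := Finset.erase_subset _ _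
  obtain ⟨hmv, hyun, hcd⟩ := h.mv hj hd hw hxy b1 b2
  have hyun' := mem_un.1 hyun
  have hzb : s(z, b) ∉ insert s(w, a) (F.erase s(a, b)) := by
    intro hh
    have e1 : s(b, z) = s(z, b) := Sym2.eq_swap
    exact hyun' z (by rw [e1]; exact hh)
  refine ⟨insert s(z, b) (insert s(w, a) (F.erase s(a, b))), ?_, ?_, ?_⟩
  · intro p q hpq
    rw [Finset.mem_insert, Sym2.eq_iff] at hpq
    rcases hpq with (⟨rfl, rfl⟩ | ⟨rfl, rfl⟩) | hpq
    · exact ⟨Ne.symm b8, b5⟩
    · exact ⟨b8, fun hh => b5 hh.symm⟩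
    · exact ⟨hmv.g.ne _ _ hpq, hmv.nadj _ _ hpq⟩
  · rw [Finset.card_insert_of_notMem hzb, hcd]
  · refine two_crit h hw hwz hxy b1 b2 b5 b6 b7 (Ne.symm b0) (Ne.symm b8) (fun v => ?_)
    by_cases hvz : v = z
    · subst hvz
      have hs : nb (kk H (insert s(v, b) (insert s(w, a) (F.erase s(a, b))))) v ⊆
          insert b (nb (kk H (insert s(w, a) (F.erase s(a, b)))) v) := by
        intro c hc
        rw [mem_nb, kk_adj] at hc
        rw [Finset.mem_insert, mem_nb, kk_adj]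
        rcases hc with ⟨h1, h2 | h2⟩
        · exact Or.inr ⟨h1, Or.inl h2⟩
        · rcases Finset.mem_insert.1 h2 with h3 | h3
          · rw [Sym2.eq_iff] at h3
            rcases h3 with ⟨_, e⟩ | ⟨e, e'⟩
            · exact Or.inl e
            · exact Or.inl (e'.trans e)
          · exact Or.inr ⟨h1, Or.inr h3⟩
      have c1 := Finset.card_le_card hs
      have c2 := Finset.card_insert_le b (nb (kk H (insert s(w, a) (F.erase s(a, b)))) v)
      have c3 := nb_kk_le (H := H) hmv.g v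
      omega
    · by_cases hvb : v = b
      · subst hvb
        have hs : nb (kk H (insert s(z, v) (insert s(w, a) (F.erase s(a, v))))) v ⊆
            insert z (nb (kk H (insert s(w, a) (F.erase s(a, v)))) v) := by
          intro c hc
          rw [mem_nb, kk_adj] at hc
          rw [Finset.mem_insert, mem_nb, kk_adj]
          rcases hc with ⟨h1, h2 | h2⟩
          · exact Or.inr ⟨h1, Or.inl h2⟩
          · rcases Finset.mem_insert.1 h2 with h3 | h3
            · rw [Sym2.eq_iff] at h3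
              rcases h3 with ⟨e, _⟩ | ⟨_, e⟩
              · exact absurd e hvz
              · exact Or.inl e
            · exact Or.inr ⟨h1, Or.inr h3⟩
        have c1 := Finset.card_le_card hs
        have c2 := Finset.card_insert_le z (nb (kk H (insert s(w, a) (F.erase s(a, v)))) v)
        have c3 := nb_kk_un (H := H) hyun'
        have := hd v
        omega
      · have hs : nb (kk H (insert s(z, b) (insert s(w, a) (F.erase s(a, b))))) v ⊆
            nb (kk H (insert s(w, a) (F.erase s(a, b)))) v := by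
          intro c hc
          rw [mem_nb, kk_adj] at hc
          rw [mem_nb, kk_adj]
          rcases hc with ⟨h1, h2 | h2⟩
          · exact ⟨h1, Or.inl h2⟩
          · rcases Finset.mem_insert.1 h2 with h3 | h3
            · rw [Sym2.eq_iff] at h3
              rcases h3 with ⟨e, _⟩ | ⟨e, _⟩
              · exact absurd e hvz
              · exact absurd e hvb
            · exact ⟨h1, Or.inr h3⟩
        have c1 := Finset.card_le_card hs
        have c3 := nb_kk_le (H := H) hmv.g v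
        have := hd v
        omega

/-- the lower bound in the linear range -/
theorem lower2 {G : SimpleGraph V} {k j : ℕ} (hk : 1 ≤ k) (hj : 1 ≤ j)
    (hn : Fintype.card V = k + j) (hbig : 4 * j ≤ k + j + 2) (hG : k ≤ kappa G) :
    ∃ F : Finset (Sym2 V), (F : Set (Sym2 V)) ⊆ G.edgeSet ∧
      F.card = ((k + j) + (k * (k + j)) % 2) / 2 ∧
      k - 1 ≤ kappa (G.deleteEdges (F : Set (Sym2 V))) := by
  have hcrit := crit_of_le hG
  have hstar : Star j Gᶜ := Star.of_crit hn hcrit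
  have hd : ∀ v, (nb Gᶜ v).card ≤ j - 1 := hstar.deg hj
  have gadj : ∀ a b, a ≠ b → ¬ Gᶜ.Adj a b → G.Adj a b := by
    intro a b h1 h2
    by_contra h3
    exact h2 ((SimpleGraph.compl_adj _ _ _).2 ⟨h1, h3⟩)
  -- the conclusion from the criterion
  have fin : ∀ F : Finset (Sym2 V), (∀ a b, s(a, b) ∈ F → a ≠ b ∧ ¬ Gᶜ.Adj a b) →
      Crit2 (j + 1) (kk Gᶜ F) → (F : Set (Sym2 V)) ⊆ G.edgeSet ∧
      k - 1 ≤ kappa (G.deleteEdges (F : Set (Sym2 V))) := by
    intro F h1 h2
    constructor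
    · intro e he
      induction e using Sym2.ind with
      | _ a b => exact gadj a b (h1 a b he).1 (h1 a b he).2
    · refine le_of_crit (by omega) ?_
      intro A B hA hB hAB hc
      by_contra hno
      push Not at hno
      have := h2 A B hA hB (fun a ha b hb => by
        have hne : a ≠ b := fun e => Finset.disjoint_left.1 hAB ha (e ▸ hb)
        refine ⟨hne, ?_⟩
        by_cases h3 : Gᶜ.Adj a b
        · exact Or.inl h3
        · right
          by_contra h4
          refine hno a ha b hb ?_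
          rw [SimpleGraph.deleteEdges_adj]
          exact ⟨gadj a b hne h3, h4⟩)
      omega
  obtain ⟨F, hF, hun⟩ := exists_sg hj hstar (by omega)
  have h2F := hF.g.two_mul_card
  have hsum := card_un_add F
  by_cases hpar : (k * (k + j)) % 2 = 0
  · obtain ⟨h1, h2⟩ := fin F (fun a b hab => ⟨hF.g.ne a b hab, hF.nadj a b hab⟩) hF.cr
    refine ⟨F, h1, ?_, h2⟩
    rw [hpar]
    omega
  · have hpar1 : (k * (k + j)) % 2 = 1 := by omega
    have hko : k % 2 = 1 := by
      rcases Nat.mod_two_eq_zero_or_one k with h | h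
      · rw [Nat.mul_mod, h] at hpar1; omega
      · exact h
    have hno' : (k + j) % 2 = 1 := by
      rcases Nat.mod_two_eq_zero_or_one (k + j) with h | h
      · rw [Nat.mul_mod, h] at hpar1; omega
      · exact h
    have hdo : (j - 1) % 2 = 1 := by omega
    obtain ⟨z, hz⟩ := exists_small (H := Gᶜ) (j := j) (by omega) hd (by
      rw [hn, Nat.mul_mod, hno', hdo])
    have hun1 : (un F).card = 1 := by omega
    obtain ⟨w, hw⟩ := Finset.card_pos.1 (show 0 < (un F).card by omega)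
    -- we may assume that `z` is matched
    obtain ⟨F1, hF1, hc1, w1, hw1, hwz⟩ : ∃ F1, SG j Gᶜ F1 ∧ F1.card = F.card ∧
        ∃ w1, w1 ∈ un F1 ∧ w1 ≠ z := by
      by_cases hwz : w = z
      · have hw' := mem_un.1 hw
        have hcard : (cc j Gᶜ F w).card < (ma F).card := by
          have c1 := hF.card_cc hj hd ((nb_kk_un (H := Gᶜ) hw').trans (hd w))
          have := hd w
          omega
        obtain ⟨x, hx, hx'⟩ := Finset.exists_mem_notMem_of_card_lt_card hcard
        replace hx' := not_cc hx'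
        obtain ⟨y, hxy⟩ := mem_ma.1 hx
        obtain ⟨h1, h2, h3⟩ := hF.mv hj hd hw hxy hx'.1 hx'.2
        refine ⟨_, h1, h3, y, h2, fun e => ?_⟩
        have hyw : y = w := e.trans hwz.symm
        exact hw' x (by rw [← hyw, Sym2.eq_swap]; exact hxy)
      · exact ⟨F, hF, rfl, w, hw, hwz⟩
    have h2F1 := hF1.g.two_mul_card
    obtain ⟨F', h1, h2, h3⟩ := exists_odd hF1 hj hd hw1 hwz hz (by omega)
    obtain ⟨h4, h5⟩ := fin F' h1 h3
    refine ⟨F', h4, ?_, h5⟩
    rw [h2, hc1, hpar1]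
    omega

end Pool.Agent.H289R4
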