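import Mathlib
import Pool.Agent.H289R4.Conn2

set_option autoImplicit false
set_option linter.unusedSectionVars false

/-!
# A lower bound for all `k`
-/

namespace Pool.Agent.H289R4

open Classical Finset

variable {V : Type} [Fintype V]

/-- a good matching of maximum size -/
theorem exists_sg_gen {H : SimpleGraph V} {j : ℕ} (hj : 1 ≤ j) (hH : Star j H) :
    ∃ F, SG j H F ∧ ((un F).card ≤ 1 ∨ (un F).card + Fintype.card V + 2 ≤ 4 * j) := by
  have hd : ∀ v, (nb H v).card ≤ j - 1 := hH.deg hj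
  have hfin : (Finset.univ.filter (fun F : Finset (Sym2 V) => SG j H F)).Nonempty := by
    refine ⟨∅, Finset.mem_filter.2 ⟨Finset.mem_univ _, ⟨⟨by simp, by simp, by simp, by simp⟩,
      by simp, ?_⟩⟩⟩
    intro A B hA hB hAB
    have := hH.crit2 A B hA hB (fun a ha b hb => by
      rcases (hAB a ha b hb).2 with h | h
      · exact h
      · exact absurd h (Finset.notMem_empty _))
    omega
  obtain ⟨F, hF, hmax⟩ := Finset.exists_max_image _ (fun F : Finset (Sym2 V) => F.card) hfin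
  rw [Finset.mem_filter] at hF
  have hno : ¬ ∃ F', SG j H F' ∧ F.card < F'.card := by
    rintro ⟨F', hF', hlt⟩
    have := hmax F' (Finset.mem_filter.2 ⟨Finset.mem_univ _, hF'⟩)
    omega
  refine ⟨F, hF.2, ?_⟩
  by_contra hc
  push Not at hc
  obtain ⟨u, hu, v, hv, huv⟩ := Finset.one_lt_card.1 hc.1
  have hsum := card_un_add F
  have key : ∀ a ∈ un F, (ma F ∩ cc j H F a).card + (un F).card ≤ 2 * (j - 1) + 1 := by
    intro a ha
    have h1 : (un F).erase a ⊆ cc j H F a := by
      intro x hx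
      rw [Finset.mem_erase] at hx
      by_contra hxc
      obtain ⟨h2, h3⟩ := not_cc hxc
      have hg := hF.2.add hj hd (Ne.symm hx.1) ha hx.2 h2 h3
      refine hno ⟨_, hg, ?_⟩
      rw [Finset.card_insert_of_notMem (mem_un.1 ha x)]
      exact Nat.lt_succ_self _
    have h4 : Disjoint ((un F).erase a) (ma F ∩ cc j H F a) := by
      rw [Finset.disjoint_left]
      intro x hx hx'
      rw [Finset.mem_erase] at hx
      rw [Finset.mem_inter] at hx'
      obtain ⟨y, hy⟩ := mem_ma.1 hx'.1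
      exact mem_un.1 hx.2 y hy
    have h5 := Finset.card_le_card (Finset.union_subset h1
      (Finset.inter_subset_right (s₁ := ma F) (s₂ := cc j H F a)))
    rw [Finset.card_union_of_disjoint h4, Finset.card_erase_of_mem ha] at h5
    have h6 := hF.2.card_cc hj hd ((nb_kk_un (H := H) (mem_un.1 ha)).trans (hd a))
    have h7 := hd a
    have h8 : 0 < (un F).card := Finset.card_pos.2 ⟨a, ha⟩
    omega
  have k1 := key u hu
  have k2 := key v hv
  have hc2 := hc.2
  exact hno (hF.2.switch hj hd hu hv huv (by omega))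

/-- the general lower bound -/
theorem lower3 {G : SimpleGraph V} {k j : ℕ} (hk : 1 ≤ k) (hj : 1 ≤ j)
    (hn : Fintype.card V = k + j) (hG : k ≤ kappa G) :
    ∃ F : Finset (Sym2 V), (F : Set (Sym2 V)) ⊆ G.edgeSet ∧
      min ((k + j) / 2) (k + 1 - j) ≤ F.card ∧
      k - 1 ≤ kappa (G.deleteEdges (F : Set (Sym2 V))) := by
  have hcrit := crit_of_le hG
  have hstar : Star j Gᶜ := Star.of_crit hn hcrit
  have gadj : ∀ a b, a ≠ b → ¬ Gᶜ.Adj a b → G.Adj a b := by
    intro a b h1 h2
    by_contra h3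
    exact h2 ((SimpleGraph.compl_adj _ _ _).2 ⟨h1, h3⟩)
  obtain ⟨F, hF, hun⟩ := exists_sg_gen hj hstar
  have h2F := hF.g.two_mul_card
  have hsum := card_un_add F
  refine ⟨F, ?_, ?_, ?_⟩
  · intro e he
    induction e using Sym2.ind with
    | _ a b => exact gadj a b (hF.g.ne a b he) (hF.nadj a b he)
  · rcases hun with h | h <;> omega
  · refine le_of_crit (by omega) ?_
    intro A B hA hB hAB hc
    by_contra hno
    push Not at hno
    have := hF.cr A B hA hB (fun a ha b hb => by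
      have hne : a ≠ b := fun e => Finset.disjoint_left.1 hAB ha (e ▸ hb)
      refine ⟨hne, ?_⟩
      by_cases h3 : Gᶜ.Adj a b
      · exact Or.inl h3
      · right
        by_contra h4
        refine hno a ha b hb ?_
        rw [SimpleGraph.deleteEdges_adj]
        exact ⟨gadj a b hne h3, h4⟩)
    omega

theorem f_ge (n k : ℕ) (hk : 1 ≤ k) (hkn : k < n) : min (n / 2) (2 * k + 1 - n) ≤ f n k := by
  obtain ⟨j, rfl⟩ : ∃ j, n = k + j := ⟨n - k, by omega⟩
  have hj : 1 ≤ j := by omega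
  have hbdd : ∀ G : SimpleGraph (Fin (k + j)), BddAbove {m : ℕ | ∃ F : Finset (Sym2 (Fin (k + j))),
      (F : Set (Sym2 (Fin (k + j)))) ⊆ G.edgeSet ∧ F.card = m ∧
      k - 1 ≤ kappa (G.deleteEdges (F : Set (Sym2 (Fin (k + j)))))} := by
    intro G
    refine ⟨Fintype.card (Sym2 (Fin (k + j))), ?_⟩
    rintro m ⟨F, -, rfl, -⟩
    exact Finset.card_le_univ _
  have htop : k ≤ kappa (⊤ : SimpleGraph (Fin (k + j))) := by
    refine le_of_crit (by rw [Fintype.card_fin]; omega) ?_
    rintro A B ⟨a, ha⟩ ⟨b, hb⟩ hAB -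
    exact ⟨a, ha, b, hb, fun e => Finset.disjoint_left.1 hAB ha (e ▸ hb)⟩
  have hmem : removable k (⊤ : SimpleGraph (Fin (k + j))) ∈
      {m : ℕ | ∃ G : SimpleGraph (Fin (k + j)), k ≤ kappa G ∧ removable k G = m} :=
    ⟨_, htop, rfl⟩
  obtain ⟨G, hG, hGe⟩ := Nat.sInf_mem ⟨_, hmem⟩
  obtain ⟨F, h1, h2, h3⟩ := lower3 hk hj (by rw [Fintype.card_fin]) hG
  have h4 : F.card ≤ removable k G := le_csSup (hbdd G) ⟨F, h1, rfl, h3⟩
  rw [hGe] at h4
  have h5 : 2 * k + 1 - (k + j) = k + 1 - j := by omega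
  rw [h5]
  exact h2.trans h4

end Pool.Agent.H289R4
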