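import Mathlib
import Pool.Agent.H289R4.Mid

set_option autoImplicit false
set_option linter.unusedSectionVars false

/-!
# A better lower bound for all `k`
-/

namespace Pool.Agent.H289R4

open Classical Finset

variable {V : Type} [Fintype V]

/-- the sides of two bad pairs at a vertex of small degree meet in nothing -/
theorem bad_disjoint {K : SimpleGraph V} {j : ℕ} (hK : Crit2 (j + 1) K) {w : V}
    (hw : (nb K w).card ≤ j - 1) {y₁ y₂ : V} (hy₁ : ¬ K.Adj y₁ w) (hy₂ : ¬ K.Adj y₂ w)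
    (hne : y₁ ≠ y₂) {A₁ B₁ A₂ B₂ : Finset V} (h₁ : BadP j K w y₁ A₁ B₁)
    (h₂ : BadP j K w y₂ A₂ B₂) : Disjoint A₁ A₂ := by
  obtain ⟨p1, p2, p3, p4, p5, p6⟩ := h₁
  obtain ⟨q1, q2, q3, q4, q5, q6⟩ := h₂
  have f1 : ∀ a ∈ A₁, a ≠ y₁ → K.Adj a w := fun a ha hay =>
    (p6 a ha w p2).resolve_right (fun hh => hay hh.1)
  have f1' : ∀ a ∈ A₂, a ≠ y₂ → K.Adj a w := fun a ha hay =>
    (q6 a ha w q2).resolve_right (fun hh => hay hh.1)
  have g1 : y₁ ∉ A₂ := fun h => hy₁ (f1' y₁ h hne)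
  have g2 : y₂ ∉ A₁ := fun h => hy₂ (f1 y₂ h hne.symm)
  rw [Finset.disjoint_left]
  intro c hc1 hc2
  have e1 := hK (A₁ ∩ A₂) (B₁ ∪ B₂) ⟨c, Finset.mem_inter.2 ⟨hc1, hc2⟩⟩
    ⟨w, Finset.mem_union.2 (Or.inl p2)⟩ (by
      intro x hx y hy
      rw [Finset.mem_inter] at hx
      rcases Finset.mem_union.1 hy with hy | hy
      · exact (p6 x hx.1 y hy).resolve_right (fun hh => g1 (hh.1 ▸ hx.2))
      · exact (q6 x hx.2 y hy).resolve_right (fun hh => g2 (hh.1 ▸ hx.1)))
  have e3 := Finset.card_union_add_card_inter A₁ A₂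
  have e4 := Finset.card_union_add_card_inter B₁ B₂
  have hwI : w ∈ B₁ ∩ B₂ := Finset.mem_inter.2 ⟨p2, q2⟩
  by_cases hne' : ((B₁ ∩ B₂).erase w).Nonempty
  · have e2 := hK (A₁ ∪ A₂) ((B₁ ∩ B₂).erase w)
      ⟨c, Finset.mem_union.2 (Or.inl hc1)⟩ hne' (by
        intro x hx y hy
        rw [Finset.mem_erase, Finset.mem_inter] at hy
        rcases Finset.mem_union.1 hx with hx | hx
        · exact (p6 x hx y hy.2.1).resolve_right (fun hh => hy.1 hh.2)
        · exact (q6 x hx y hy.2.2).resolve_right (fun hh => hy.1 hh.2))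
    rw [Finset.card_erase_of_mem hwI] at e2
    omega
  · have h0 : ((B₁ ∩ B₂).erase w).card = 0 := by
      rw [Finset.card_eq_zero, ← Finset.not_nonempty_iff_eq_empty]
      exact hne'
    rw [Finset.card_erase_of_mem hwI] at h0
    have hsub : ((A₁ ∪ A₂).erase y₁).erase y₂ ⊆ nb K w := by
      intro x hx
      rw [Finset.mem_erase, Finset.mem_erase, Finset.mem_union] at hx
      rcases hx.2.2 with h | h
      · exact mem_nb.2 (f1 x h hx.2.1).symm
      · exact mem_nb.2 (f1' x h hx.1).symm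
    have h5 := Finset.card_le_card hsub
    rw [Finset.card_erase_of_mem (Finset.mem_erase.2 ⟨hne.symm, Finset.mem_union.2 (Or.inr q1)⟩),
      Finset.card_erase_of_mem (Finset.mem_union.2 (Or.inl p1))] at h5
    have h6 : 0 < (A₁ ∩ A₂).card := Finset.card_pos.2 ⟨c, Finset.mem_inter.2 ⟨hc1, hc2⟩⟩
    have h7 : 0 < (B₁ ∩ B₂).card := Finset.card_pos.2 ⟨w, hwI⟩
    omega

/-- swapping the two sides -/
theorem BadP.swap {K : SimpleGraph V} {j : ℕ} {w y : V} {A B : Finset V}
    (h : BadP j K w y A B) : BadP j K y w B A := by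
  obtain ⟨p1, p2, p3, p4, p5, p6⟩ := h
  refine ⟨p2, p1, p4, p3, by omega, fun a ha b hb => ?_⟩
  rcases p6 b hb a ha with h | h
  · exact Or.inl h.symm
  · exact Or.inr ⟨h.2, h.1⟩

/-- a choice of bad pairs with the first side as large as possible -/
theorem exists_side (j : ℕ) (K : SimpleGraph V) :
    ∃ S : V → V → Finset V × Finset V, ∀ w, ∀ y ∈ bad j K w, BadP j K w y (S w y).1 (S w y).2 ∧
      ∀ A B, BadP j K w y A B → A.card ≤ (S w y).1.card := by
  have hex : ∀ w y, ∃ P : Finset V × Finset V, y ∈ bad j K w → BadP j K w y P.1 P.2 ∧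
      ∀ A B, BadP j K w y A B → A.card ≤ P.1.card := by
    intro w y
    by_cases hy : y ∈ bad j K w
    · obtain ⟨_, A, B, h⟩ := (Finset.mem_filter.1 hy).2
      have hne : (Finset.univ.filter
          (fun P : Finset V × Finset V => BadP j K w y P.1 P.2)).Nonempty :=
        ⟨(A, B), Finset.mem_filter.2 ⟨Finset.mem_univ _, h⟩⟩
      obtain ⟨P, hP, hmax⟩ := Finset.exists_max_image _
        (fun P : Finset V × Finset V => P.1.card) hne
      exact ⟨P, fun _ => ⟨(Finset.mem_filter.1 hP).2, fun A B hAB =>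
        hmax (A, B) (Finset.mem_filter.2 ⟨Finset.mem_univ _, hAB⟩)⟩⟩
    · exact ⟨(∅, ∅), fun hh => absurd hh hy⟩
  choose S hS using hex
  exact ⟨S, fun w y hy => hS w y hy⟩

theorem bad_symm {K : SimpleGraph V} {j : ℕ} {w y : V} (h : y ∈ bad j K w) : w ∈ bad j K y := by
  obtain ⟨h1, A, B, h2⟩ := (Finset.mem_filter.1 h).2
  exact Finset.mem_filter.2 ⟨Finset.mem_univ _, fun hh => h1 hh.symm, B, A, h2.swap⟩

/-- the sides at a vertex of small degree have total size at most its degree -/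
theorem sum_sides {K : SimpleGraph V} {j : ℕ} (hK : Crit2 (j + 1) K) {w : V}
    (hw : (nb K w).card ≤ j - 1) (S : V → Finset V × Finset V)
    (hS : ∀ y ∈ bad j K w, BadP j K w y (S y).1 (S y).2) :
    ∑ y ∈ bad j K w, ((S y).1.card - 1) ≤ (nb K w).card := by
  have hnadj : ∀ y ∈ bad j K w, ¬ K.Adj y w := fun y hy => (Finset.mem_filter.1 hy).2.1
  have h1 : ∀ y ∈ bad j K w, (S y).1.card - 1 = ((S y).1.erase y).card := by
    intro y hy
    rw [Finset.card_erase_of_mem (hS y hy).1]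
  rw [Finset.sum_congr rfl h1, ← Finset.card_biUnion]
  · refine Finset.card_le_card (fun c hc => ?_)
    obtain ⟨y, hy, hc⟩ := Finset.mem_biUnion.1 hc
    rw [Finset.mem_erase] at hc
    obtain ⟨p1, p2, p3, p4, p5, p6⟩ := hS y hy
    exact mem_nb.2 ((p6 c hc.2 w p2).resolve_right (fun hh => hc.1 hh.1)).symm
  · intro y₁ h₁ y₂ h₂ hne
    rw [Finset.mem_coe] at h₁ h₂
    exact Finset.disjoint_of_subset_left (Finset.erase_subset _ _)
      (Finset.disjoint_of_subset_right (Finset.erase_subset _ _)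
        (bad_disjoint hK hw (hnadj _ h₁) (hnadj _ h₂) hne (hS _ h₁) (hS _ h₂)))

/-- few bad pairs inside a set of vertices of small degree -/
theorem sum_bad {K : SimpleGraph V} {j : ℕ} (hK : Crit2 (j + 1) K) (U : Finset V)
    (hU : ∀ w ∈ U, (nb K w).card ≤ j - 1) :
    j * ∑ w ∈ U, (bad j K w ∩ U).card ≤ 2 * (U.card * (j - 1)) := by
  obtain ⟨S, hS⟩ := exists_side j K
  have h1 : ∀ w ∈ U, ∑ y ∈ bad j K w ∩ U, ((S w y).1.card - 1) ≤ j - 1 := by
    intro w hw
    refine le_trans ?_ ((sum_sides hK (hU w hw) (S w) (fun y hy => (hS w y hy).1)).trans (hU w hw))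
    exact Finset.sum_le_sum_of_subset Finset.inter_subset_left
  have h2 : ∑ w ∈ U, ∑ y ∈ bad j K w ∩ U, ((S w y).1.card - 1) ≤ U.card * (j - 1) := by
    rw [← smul_eq_mul]
    exact Finset.sum_le_card_nsmul _ _ _ h1
  -- as a sum over ordered pairs
  have h3 : ∑ w ∈ U, ∑ y ∈ bad j K w ∩ U, ((S w y).1.card - 1) =
      ∑ w ∈ U, ∑ y ∈ U, (if y ∈ bad j K w then ((S w y).1.card - 1) else 0) := by
    refine Finset.sum_congr rfl (fun w _ => ?_)
    rw [← Finset.sum_filter]
    congr 1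
    ext y
    rw [Finset.mem_inter, Finset.mem_filter, and_comm]
  have h4 : ∑ w ∈ U, ∑ y ∈ U, (if y ∈ bad j K w then ((S w y).1.card - 1) else 0) =
      ∑ w ∈ U, ∑ y ∈ U, (if y ∈ bad j K w then ((S y w).1.card - 1) else 0) := by
    rw [Finset.sum_comm]
    refine Finset.sum_congr rfl (fun w _ => Finset.sum_congr rfl (fun y _ => ?_))
    by_cases h : y ∈ bad j K w
    · rw [if_pos h, if_pos (bad_symm h)]
    · rw [if_neg h, if_neg (fun hh => h (bad_symm hh))]
  have h5 : j * ∑ w ∈ U, (bad j K w ∩ U).card ≤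
      ∑ w ∈ U, ∑ y ∈ U, (if y ∈ bad j K w then ((S w y).1.card - 1) else 0) +
      ∑ w ∈ U, ∑ y ∈ U, (if y ∈ bad j K w then ((S y w).1.card - 1) else 0) := by
    rw [Finset.mul_sum, ← Finset.sum_add_distrib]
    refine Finset.sum_le_sum (fun w _ => ?_)
    rw [← Finset.sum_add_distrib]
    have h6 : j * (bad j K w ∩ U).card = ∑ y ∈ U, (if y ∈ bad j K w then j else 0) := by
      rw [← Finset.sum_filter, Finset.sum_const, smul_eq_mul, mul_comm]
      congr 2
      ext y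
      rw [Finset.mem_inter, Finset.mem_filter, and_comm]
    rw [h6]
    refine Finset.sum_le_sum (fun y _ => ?_)
    by_cases h : y ∈ bad j K w
    · rw [if_pos h, if_pos h, if_pos h]
      obtain ⟨⟨p1, p2, p3, p4, p5, p6⟩, _⟩ := hS w y h
      have h7 := (hS y w (bad_symm h)).2 _ _ (hS w y h).1.swap
      omega
    · rw [if_neg h, if_neg h, if_neg h]
  rw [← h4, ← h3] at h5
  omega

end Pool.Agent.H289R4
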