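import Mathlib
import Pool.Agent.H289R4.Mid2

set_option autoImplicit false
set_option linter.unusedSectionVars false

/-!
# A better lower bound for all `k`, continued
-/

namespace Pool.Agent.H289R4

open Classical Finset

variable {V : Type} [Fintype V]

theorem nb_kk_eq {H : SimpleGraph V} {F : Finset (Sym2 V)} {v : V} (hv : v ∈ un F) :
    nb (kk H F) v = nb H v := by
  ext b
  rw [mem_nb, mem_nb, kk_adj]
  exact ⟨fun h => h.2.resolve_right (mem_un.1 hv b), fun h => ⟨h.ne, Or.inl h⟩⟩

theorem two_card_bad {K : SimpleGraph V} {j : ℕ} (hK : Crit2 (j + 1) K) {w : V}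
    (hw : (nb K w).card ≤ j - 1) (M U : Finset V) (hMU : ∀ v, v ∈ M ∨ v ∈ U)
    (_hdis : Disjoint M U) (hU : ∀ c ∈ U, (nb K c).card ≤ j - 1) (hj : 1 ≤ j) :
    2 * (bad j K w).card ≤ 2 * (nb K w ∩ M).card + (nb K w ∩ U).card := by
  obtain ⟨S, hS⟩ := exists_side j K
  have hnadj : ∀ y ∈ bad j K w, ¬ K.Adj y w := fun y hy => (Finset.mem_filter.1 hy).2.1
  let T : V → Finset V := fun y => (S w y).1.erase y
  have hTd : ∀ y₁ ∈ bad j K w, ∀ y₂ ∈ bad j K w, y₁ ≠ y₂ → Disjoint (T y₁) (T y₂) := by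
    intro y₁ h₁ y₂ h₂ hne
    exact Finset.disjoint_of_subset_left (Finset.erase_subset _ _)
      (Finset.disjoint_of_subset_right (Finset.erase_subset _ _)
        (bad_disjoint hK hw (hnadj _ h₁) (hnadj _ h₂) hne (hS w _ h₁).1 (hS w _ h₂).1))
  have hTN : ∀ y ∈ bad j K w, T y ⊆ nb K w := by
    intro y hy c hc
    rw [Finset.mem_erase] at hc
    obtain ⟨⟨p1, p2, p3, p4, p5, p6⟩, _⟩ := hS w y hy
    exact mem_nb.2 ((p6 c hc.2 w p2).resolve_right (fun hh => hc.1 hh.1)).symm
  have hT1 : ∀ y ∈ bad j K w, 2 ≤ 2 * (T y ∩ M).card + (T y ∩ U).card := by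
    intro y hy
    obtain ⟨⟨p1, p2, p3, p4, p5, p6⟩, _⟩ := hS w y hy
    by_cases hm : (T y ∩ M).Nonempty
    · have := Finset.card_pos.2 hm
      omega
    · have hTU : T y ∩ U = T y := by
        rw [Finset.inter_eq_left]
        intro c hc
        rcases hMU c with h | h
        · exact absurd ⟨c, Finset.mem_inter.2 ⟨hc, h⟩⟩ hm
        · exact h
      rw [hTU]
      have hcT : (T y).card = (S w y).1.card - 1 := Finset.card_erase_of_mem p1
      by_contra hlt
      have h1 : (T y).card = 1 := by omega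
      obtain ⟨c, hc⟩ := Finset.card_eq_one.1 h1
      have hcm : c ∈ T y := by rw [hc]; exact Finset.mem_singleton_self c
      have hcU : c ∈ U := Finset.inter_eq_left.1 hTU hcm
      have hce := Finset.mem_erase.1 hcm
      have hB : (S w y).2 ⊆ nb K c := fun b hb =>
        mem_nb.2 ((p6 c hce.2 b hb).resolve_right (fun hh => hce.1 hh.1))
      have h2 := Finset.card_le_card hB
      have h3 := hU c hcU
      omega
  have hsum := Finset.card_nsmul_le_sum _ _ _ hT1
  rw [smul_eq_mul, Finset.sum_add_distrib, ← Finset.mul_sum] at hsum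
  have hM1 : ∑ y ∈ bad j K w, (T y ∩ M).card ≤ (nb K w ∩ M).card := by
    rw [← Finset.card_biUnion]
    · refine Finset.card_le_card (fun c hc => ?_)
      obtain ⟨y, hy, hc⟩ := Finset.mem_biUnion.1 hc
      rw [Finset.mem_inter] at hc ⊢
      exact ⟨hTN y hy hc.1, hc.2⟩
    · intro y₁ h₁ y₂ h₂ hne
      exact Finset.disjoint_of_subset_left Finset.inter_subset_left
        (Finset.disjoint_of_subset_right Finset.inter_subset_left (hTd y₁ h₁ y₂ h₂ hne))
  have hU1 : ∑ y ∈ bad j K w, (T y ∩ U).card ≤ (nb K w ∩ U).card := by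
    rw [← Finset.card_biUnion]
    · refine Finset.card_le_card (fun c hc => ?_)
      obtain ⟨y, hy, hc⟩ := Finset.mem_biUnion.1 hc
      rw [Finset.mem_inter] at hc ⊢
      exact ⟨hTN y hy hc.1, hc.2⟩
    · intro y₁ h₁ y₂ h₂ hne
      exact Finset.disjoint_of_subset_left Finset.inter_subset_left
        (Finset.disjoint_of_subset_right Finset.inter_subset_left (hTd y₁ h₁ y₂ h₂ hne))
  omega

/-- two vertices with few bad partners -/
theorem exists_two {U : Finset V} {β : V → ℕ} (h2 : 2 ≤ U.card)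
    (hs : ∑ w ∈ U, β w < 2 * U.card) : ∃ u ∈ U, ∃ v ∈ U, u ≠ v ∧ β u + β v ≤ 3 := by
  by_contra hno
  push Not at hno
  have hne : U.Nonempty := Finset.card_pos.1 (by omega)
  obtain ⟨u, hu, hmin⟩ := Finset.exists_min_image U β hne
  rw [← Finset.add_sum_erase U β hu] at hs
  have hcard : (U.erase u).card = U.card - 1 := Finset.card_erase_of_mem hu
  by_cases hb : 2 ≤ β u
  · have h1 : (U.erase u).card • 2 ≤ ∑ x ∈ U.erase u, β x :=
      Finset.card_nsmul_le_sum (U.erase u) β 2 (fun v hv =>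
        hb.trans (hmin v (Finset.mem_of_mem_erase hv)))
    rw [hcard, smul_eq_mul] at h1
    omega
  · have h1 : (U.erase u).card • (4 - β u) ≤ ∑ x ∈ U.erase u, β x :=
      Finset.card_nsmul_le_sum (U.erase u) β (4 - β u) (fun v hv => by
      have := hno u hu v (Finset.mem_of_mem_erase hv) (Finset.ne_of_mem_erase hv).symm
      omega)
    rw [hcard, smul_eq_mul] at h1
    obtain ⟨q, hq⟩ : ∃ q, U.card = q + 2 := ⟨U.card - 2, by omega⟩
    rw [hq] at h1 hs
    have h3 : β u = 0 ∨ β u = 1 := by omega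
    rcases h3 with h3 | h3 <;> rw [h3] at h1 hs <;> omega

/-- a good matching of maximum size, with a better bound -/
theorem exists_sg_gen2 {H : SimpleGraph V} {j : ℕ} (hj : 1 ≤ j) (hH : Star j H) :
    ∃ F, SG j H F ∧ ((un F).card ≤ 1 ∨ 2 * (un F).card + Fintype.card V ≤ 4 * j) := by
  have hd : ∀ v, (nb H v).card ≤ j - 1 := hH.deg hj
  have hfin : (Finset.univ.filter (fun F : Finset (Sym2 V) => SG j H F)).Nonempty := by
    refine ⟨∅, Finset.mem_filter.2 ⟨Finset.mem_univ _, ⟨⟨by simp, by simp, by simp, by simp⟩,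
      by simp, ?_⟩⟩⟩
    intro A B hA hB hAB
    have := hH.crit2 A B hA hB (fun a ha b hb => by
      rcases (hAB a ha b hb).2 with h | h
      · exact h
      · exact absurd h (Finset.notMem_empty _))
    omega
  obtain ⟨F, hF, hmax⟩ := Finset.exists_max_image _ (fun F : Finset (Sym2 V) => F.card) hfin
  rw [Finset.mem_filter] at hF
  have hno : ¬ ∃ F', SG j H F' ∧ F.card < F'.card := by
    rintro ⟨F', hF', hlt⟩
    have := hmax F' (Finset.mem_filter.2 ⟨Finset.mem_univ _, hF'⟩)
    omega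
  refine ⟨F, hF.2, ?_⟩
  by_contra hc
  push Not at hc
  have hsum := card_un_add F
  have hMU : ∀ v, v ∈ ma F ∨ v ∈ un F := by
    intro v
    by_cases h : ∃ w, s(v, w) ∈ F
    · exact Or.inl (mem_ma.2 h)
    · push Not at h
      exact Or.inr (mem_un.2 h)
  have hdis : Disjoint (ma F) (un F) := by
    rw [Finset.disjoint_left]
    intro x hx hx'
    obtain ⟨y, hy⟩ := mem_ma.1 hx
    exact mem_un.1 hx' y hy
  have hUd : ∀ c ∈ un F, (nb (kk H F) c).card ≤ j - 1 := fun c hc' => by
    rw [nb_kk_eq hc']; exact hd c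
  have hβ := sum_bad hF.2.cr (un F) hUd
  obtain ⟨u, hu, v, hv, huv, huv3⟩ := exists_two (U := un F)
    (β := fun w => (bad j (kk H F) w ∩ un F).card) (by omega) (by
      by_contra hlt
      push Not at hlt
      have h1 := Nat.mul_le_mul_left j hlt
      have h2 : j * (2 * (un F).card) ≤ 2 * ((un F).card * (j - 1)) := h1.trans hβ
      obtain ⟨i, rfl⟩ : ∃ i, j = i + 1 := ⟨j - 1, by omega⟩
      rw [Nat.add_sub_cancel] at h2
      have h3 : 0 < (un F).card := by omega
      nlinarith)
  have key : ∀ a ∈ un F, 2 * (ma F ∩ cc j H F a).card + 3 * (un F).card ≤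
      4 * (j - 1) + 3 + (bad j (kk H F) a ∩ un F).card := by
    intro a ha
    have h1 : (un F).erase a ⊆ (nb H a ∩ un F) ∪ (bad j (kk H F) a ∩ un F) := by
      intro x hx
      rw [Finset.mem_erase] at hx
      have hxcc : x ∈ cc j H F a := by
        by_contra hxc
        obtain ⟨h2, h3⟩ := not_cc hxc
        have hg := hF.2.add hj hd (Ne.symm hx.1) ha hx.2 h2 h3
        refine hno ⟨_, hg, ?_⟩
        rw [Finset.card_insert_of_notMem (mem_un.1 ha x)]
        exact Nat.lt_succ_self _
      rw [cc, Finset.mem_union] at hxcc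
      rw [Finset.mem_union, Finset.mem_inter, Finset.mem_inter]
      rcases hxcc with h | h
      · exact Or.inl ⟨h, hx.2⟩
      · exact Or.inr ⟨h, hx.2⟩
    have h2 := Finset.card_le_card h1
    have h3 := Finset.card_union_le (nb H a ∩ un F) (bad j (kk H F) a ∩ un F)
    rw [Finset.card_erase_of_mem ha] at h2
    have h4 := two_card_bad hF.2.cr (hUd a ha) (ma F) (un F) hMU hdis hUd hj
    rw [nb_kk_eq ha] at h4
    have h5 : (nb H a ∩ ma F).card + (nb H a ∩ un F).card ≤ (nb H a).card := by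
      rw [← Finset.card_union_of_disjoint (Finset.disjoint_of_subset_left
        Finset.inter_subset_right (Finset.disjoint_of_subset_right
          Finset.inter_subset_right hdis))]
      exact Finset.card_le_card (Finset.union_subset Finset.inter_subset_left
        Finset.inter_subset_left)
    have h6 : (bad j (kk H F) a ∩ ma F).card + (bad j (kk H F) a ∩ un F).card ≤
        (bad j (kk H F) a).card := by
      rw [← Finset.card_union_of_disjoint (Finset.disjoint_of_subset_left
        Finset.inter_subset_right (Finset.disjoint_of_subset_right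
          Finset.inter_subset_right hdis))]
      exact Finset.card_le_card (Finset.union_subset Finset.inter_subset_left
        Finset.inter_subset_left)
    have h7 : (ma F ∩ cc j H F a).card ≤ (nb H a ∩ ma F).card +
        (bad j (kk H F) a ∩ ma F).card := by
      refine le_trans (Finset.card_le_card (fun x hx => ?_)) (Finset.card_union_le _ _)
      rw [Finset.mem_inter, cc, Finset.mem_union] at hx
      rw [Finset.mem_union, Finset.mem_inter, Finset.mem_inter]
      rcases hx.2 with h | h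
      · exact Or.inl ⟨h, hx.1⟩
      · exact Or.inr ⟨h, hx.1⟩
    have h8 := hd a
    have h9 : 0 < (un F).card := Finset.card_pos.2 ⟨a, ha⟩
    omega
  have k1 := key u hu
  have k2 := key v hv
  have hc1 := hc.1
  have hc2 := hc.2
  exact hno (hF.2.switch hj hd hu hv huv (by omega))

/-- the general lower bound -/
theorem lower4 {G : SimpleGraph V} {k j : ℕ} (hk : 1 ≤ k) (hj : 1 ≤ j)
    (hn : Fintype.card V = k + j) (hG : k ≤ kappa G) :
    ∃ F : Finset (Sym2 V), (F : Set (Sym2 V)) ⊆ G.edgeSet ∧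
      min ((k + j) / 2) ((3 * k + 3 - j) / 4) ≤ F.card ∧
      k - 1 ≤ kappa (G.deleteEdges (F : Set (Sym2 V))) := by
  have hcrit := crit_of_le hG
  have hstar : Star j Gᶜ := Star.of_crit hn hcrit
  have gadj : ∀ a b, a ≠ b → ¬ Gᶜ.Adj a b → G.Adj a b := by
    intro a b h1 h2
    by_contra h3
    exact h2 ((SimpleGraph.compl_adj _ _ _).2 ⟨h1, h3⟩)
  obtain ⟨F, hF, hun⟩ := exists_sg_gen2 hj hstar
  have h2F := hF.g.two_mul_card
  have hsum := card_un_add F
  refine ⟨F, ?_, ?_, ?_⟩
  · intro e he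
    induction e using Sym2.ind with
    | _ a b => exact gadj a b (hF.g.ne a b he) (hF.nadj a b he)
  · rcases hun with h | h <;> omega
  · refine le_of_crit (by omega) ?_
    intro A B hA hB hAB hc
    by_contra hno
    push Not at hno
    have := hF.cr A B hA hB (fun a ha b hb => by
      have hne : a ≠ b := fun e => Finset.disjoint_left.1 hAB ha (e ▸ hb)
      refine ⟨hne, ?_⟩
      by_cases h3 : Gᶜ.Adj a b
      · exact Or.inl h3
      · right
        by_contra h4
        refine hno a ha b hb ?_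
        rw [SimpleGraph.deleteEdges_adj]
        exact ⟨gadj a b hne h3, h4⟩)
    omega

theorem f_ge2 (n k : ℕ) (hk : 1 ≤ k) (hkn : k < n) :
    min (n / 2) ((4 * k + 3 - n) / 4) ≤ f n k := by
  obtain ⟨j, rfl⟩ : ∃ j, n = k + j := ⟨n - k, by omega⟩
  have hj : 1 ≤ j := by omega
  have hbdd : ∀ G : SimpleGraph (Fin (k + j)), BddAbove {m : ℕ | ∃ F : Finset (Sym2 (Fin (k + j))),
      (F : Set (Sym2 (Fin (k + j)))) ⊆ G.edgeSet ∧ F.card = m ∧
      k - 1 ≤ kappa (G.deleteEdges (F : Set (Sym2 (Fin (k + j)))))} := by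
    intro G
    refine ⟨Fintype.card (Sym2 (Fin (k + j))), ?_⟩
    rintro m ⟨F, -, rfl, -⟩
    exact Finset.card_le_univ _
  have htop : k ≤ kappa (⊤ : SimpleGraph (Fin (k + j))) := by
    refine le_of_crit (by rw [Fintype.card_fin]; omega) ?_
    rintro A B ⟨a, ha⟩ ⟨b, hb⟩ hAB -
    exact ⟨a, ha, b, hb, fun e => Finset.disjoint_left.1 hAB ha (e ▸ hb)⟩
  have hmem : removable k (⊤ : SimpleGraph (Fin (k + j))) ∈
      {m : ℕ | ∃ G : SimpleGraph (Fin (k + j)), k ≤ kappa G ∧ removable k G = m} :=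
    ⟨_, htop, rfl⟩
  obtain ⟨G, hG, hGe⟩ := Nat.sInf_mem ⟨_, hmem⟩
  obtain ⟨F, h1, h2, h3⟩ := lower4 hk hj (by rw [Fintype.card_fin]) hG
  have h4 : F.card ≤ removable k G := le_csSup (hbdd G) ⟨F, h1, rfl, h3⟩
  rw [hGe] at h4
  have h5 : 4 * k + 3 - (k + j) = 3 * k + 3 - j := by omega
  rw [h5]
  exact h2.trans h4

end Pool.Agent.H289R4
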