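import Mathlib
import Pool.Agent.H289R4.Conn

set_option autoImplicit false
set_option linter.unusedSectionVars false

/-!
# The extremal graph, and the upper bound on the number of removable edges
-/

namespace Pool.Agent.H289R4

open Classical Finset
open scoped Pointwise

/-- degree counting: if every vertex `v` has at least `j - c v` neighbours in the complement, then
at most `(∑ c v)/2` edges can be removed -/
theorem upper_aux {V : Type} [Fintype V] {G : SimpleGraph V} {k j : ℕ} (hk : 1 ≤ k)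
    (hn : Fintype.card V = k + j)
    (c : V → ℕ) (hH : ∀ v, j ≤ (nb Gᶜ v).card + c v) {F : Finset (Sym2 V)}
    (hFG : (F : Set (Sym2 V)) ⊆ G.edgeSet)
    (hF : k - 1 ≤ kappa (G.deleteEdges (F : Set (Sym2 V)))) : 2 * F.card ≤ ∑ v, c v := by
  have hFadj : ∀ a b, s(a, b) ∈ F → G.Adj a b := fun a b h => hFG h
  let K : SimpleGraph V := SimpleGraph.fromEdgeSet (F : Set (Sym2 V))
  have hadj : ∀ a b, K.Adj a b ↔ s(a, b) ∈ F := by
    intro a b
    simp only [K, SimpleGraph.fromEdgeSet_adj, Finset.mem_coe]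
    exact ⟨fun hh => hh.1, fun hh => ⟨hh, (hFadj a b hh).ne⟩⟩
  have hE : ∀ i : Fintype K.edgeSet, (@SimpleGraph.edgeFinset V K i).card = F.card := by
    intro i
    congr 1
    ext e
    induction e using Sym2.ind with
    | _ a b => rw [SimpleGraph.mem_edgeFinset, SimpleGraph.mem_edgeSet, hadj]
  have hs := K.sum_degrees_eq_twice_card_edges
  rw [hE] at hs
  rw [← hs]
  refine Finset.sum_le_sum (fun v _ => ?_)
  have hKd : K.degree v = (nb K v).card := by
    rw [← SimpleGraph.card_neighborFinset_eq_degree]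
    congr 1
    ext w
    rw [mem_nb, SimpleGraph.mem_neighborFinset]
  have hdis : Disjoint (nb Gᶜ v) (nb K v) := by
    rw [Finset.disjoint_left]
    intro w h1 h2
    rw [mem_nb] at h1 h2
    exact ((SimpleGraph.compl_adj _ _ _).1 h1).2 (hFadj _ _ ((hadj _ _).1 h2))
  have hcrit := crit_of_le hF
  have hle : (nb Gᶜ v ∪ nb K v).card ≤ j := by
    by_contra hlt
    push Not at hlt
    obtain ⟨a, ha, b, hb, hab⟩ := hcrit {v} (nb Gᶜ v ∪ nb K v) ⟨v, Finset.mem_singleton_self v⟩
      (by rw [← Finset.card_pos]; omega) (by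
        rw [Finset.disjoint_singleton_left, Finset.mem_union, mem_nb, mem_nb]
        rintro (hh | hh)
        · exact Gᶜ.irrefl hh
        · exact K.irrefl hh) (by rw [Finset.card_singleton]; omega)
    rw [Finset.mem_singleton] at ha
    subst ha
    rw [SimpleGraph.deleteEdges_adj] at hab
    rw [Finset.mem_union, mem_nb, mem_nb] at hb
    rcases hb with hh | hh
    · exact ((SimpleGraph.compl_adj _ _ _).1 hh).2 hab.1
    · exact hab.2 ((hadj _ _).1 hh)
  rw [Finset.card_union_of_disjoint hdis] at hle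
  have := hH v
  rw [hKd]
  omega

/-- cyclic distance between `1` and `r` -/
def near (n r : ℕ) (x y : Fin n) : Prop :=
  ∃ d : ℤ, d ≠ 0 ∧ |d| ≤ (r : ℤ) ∧ (n : ℤ) ∣ ((y : ℕ) : ℤ) - ((x : ℕ) : ℤ) - d

/-- the opposite vertex -/
def mat (n : ℕ) (x y : Fin n) : Prop :=
  ((x : ℕ) < n / 2 ∧ (y : ℕ) = (x : ℕ) + n / 2) ∨ ((y : ℕ) < n / 2 ∧ (x : ℕ) = (y : ℕ) + n / 2)

theorem near_symm {n r : ℕ} {x y : Fin n} (h : near n r x y) : near n r y x := by
  obtain ⟨d, h0, h1, h2⟩ := h
  refine ⟨-d, neg_ne_zero.2 h0, by rwa [abs_neg], ?_⟩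
  have : ((x : ℕ) : ℤ) - ((y : ℕ) : ℤ) - -d = -(((y : ℕ) : ℤ) - ((x : ℕ) : ℤ) - d) := by ring
  rw [this]
  exact (dvd_neg).2 h2

theorem mat_symm {n : ℕ} {x y : Fin n} (h : mat n x y) : mat n y x := h.symm

theorem mat_uniq {n : ℕ} {x y z : Fin n} (h : mat n x y) (h' : mat n x z) : y = z := by
  apply Fin.ext
  rcases h with h | h <;> rcases h' with h' | h' <;> omega

theorem mat_uniq' {n : ℕ} {x y z : Fin n} (h : mat n y x) (h' : mat n z x) : y = z :=
  mat_uniq (mat_symm h) (mat_symm h')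

theorem near_irrefl {n r : ℕ} (hr : r < n) (x : Fin n) : ¬ near n r x x := by
  rintro ⟨d, h0, h1, h2⟩
  have h3 : (n : ℤ) ∣ d := by
    have : ((x : ℕ) : ℤ) - ((x : ℕ) : ℤ) - d = -d := by ring
    rw [this] at h2
    exact (dvd_neg).1 h2
  exact h0 (Int.eq_zero_of_abs_lt_dvd h3 (lt_of_le_of_lt h1 (by exact_mod_cast hr)))

theorem mat_irrefl {n : ℕ} (x : Fin n) : ¬ mat n x x := by
  rintro (h | h) <;> omega

/-- the complement of the extremal graph -/
def ex (n r : ℕ) (e : Prop) (hr : r < n) : SimpleGraph (Fin n) where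
  Adj x y := near n r x y ∨ (e ∧ mat n x y)
  symm := ⟨by
    rintro x y (h | h)
    · exact Or.inl (near_symm h)
    · exact Or.inr ⟨h.1, mat_symm h.2⟩⟩
  loopless := ⟨by
    rintro x (h | h)
    · exact near_irrefl hr x h
    · exact mat_irrefl x h.2⟩

theorem fin_eq {n : ℕ} {x y : Fin n} (h : (n : ℤ) ∣ ((x : ℕ) : ℤ) - ((y : ℕ) : ℤ)) : x = y := by
  have hx := x.2
  have hy := y.2
  have : ((x : ℕ) : ℤ) - ((y : ℕ) : ℤ) = 0 := by
    refine Int.eq_zero_of_abs_lt_dvd h ?_
    rw [abs_lt]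
    constructor <;> omega
  apply Fin.ext
  omega

theorem near_star {n r : ℕ} (h4 : 4 * r < n) {A B : Finset (Fin n)} (hA : A.Nonempty)
    (hB : B.Nonempty) (h : ∀ a ∈ A, ∀ b ∈ B, near n r a b) : A.card + B.card ≤ 2 * r + 1 := by
  obtain ⟨a0, ha0⟩ := hA
  obtain ⟨b0, hb0⟩ := hB
  have he' : ∀ b : Fin n, ∃ e : ℤ, b ∈ B → (|e| ≤ (r : ℤ) ∧
      (n : ℤ) ∣ ((b : ℕ) : ℤ) - ((a0 : ℕ) : ℤ) - e) := by
    intro b
    by_cases hb : b ∈ B
    · obtain ⟨d, _, h2, h3⟩ := h a0 ha0 b hb
      exact ⟨d, fun _ => ⟨h2, h3⟩⟩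
    · exact ⟨0, fun hh => absurd hh hb⟩
  choose e he using he'
  have hg' : ∀ a : Fin n, ∃ g : ℤ, a ∈ A → (|g| ≤ 2 * (r : ℤ) ∧
      (n : ℤ) ∣ ((a : ℕ) : ℤ) - ((a0 : ℕ) : ℤ) - g) := by
    intro a
    by_cases ha : a ∈ A
    · obtain ⟨d, _, h2, h3⟩ := h a ha b0 hb0
      obtain ⟨h4, h5⟩ := he b0 hb0
      refine ⟨e b0 - d, fun _ => ⟨?_, ?_⟩⟩
      · rw [abs_le] at *
        constructor <;> omega
      · have := dvd_sub h5 h3
        have h6 : ((b0 : ℕ) : ℤ) - ((a0 : ℕ) : ℤ) - e b0 - (((b0 : ℕ) : ℤ) - ((a : ℕ) : ℤ) - d) =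
          ((a : ℕ) : ℤ) - ((a0 : ℕ) : ℤ) - (e b0 - d) := by ring
        rwa [h6] at this
    · exact ⟨0, fun hh => absurd hh ha⟩
  choose g hg using hg'
  have hcE : (B.image e).card = B.card := by
    refine Finset.card_image_of_injOn (fun x hx y hy hxy => ?_)
    have h1 := (he x hx).2
    have h2 := (he y hy).2
    have h3 := dvd_sub h1 h2
    refine fin_eq ?_
    have hxy' : e x = e y := hxy
    have h6 : ((x : ℕ) : ℤ) - ((a0 : ℕ) : ℤ) - e x - (((y : ℕ) : ℤ) - ((a0 : ℕ) : ℤ) - e y) =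
        ((x : ℕ) : ℤ) - ((y : ℕ) : ℤ) := by rw [hxy']; ring
    rwa [h6] at h3
  have hcG : (A.image (fun a => - g a)).card = A.card := by
    refine Finset.card_image_of_injOn (fun x hx y hy hxy => ?_)
    have h1 := (hg x hx).2
    have h2 := (hg y hy).2
    have h3 := dvd_sub h1 h2
    refine fin_eq ?_
    have hxy' : g x = g y := neg_injective hxy
    have h6 : ((x : ℕ) : ℤ) - ((a0 : ℕ) : ℤ) - g x - (((y : ℕ) : ℤ) - ((a0 : ℕ) : ℤ) - g y) =
        ((x : ℕ) : ℤ) - ((y : ℕ) : ℤ) := by rw [hxy']; ring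
    rwa [h6] at h3
  have hcd := cauchy_davenport_add_of_linearOrder_isCancelAdd (s := B.image e)
    (t := A.image (fun a => - g a)) ⟨_, Finset.mem_image_of_mem _ hb0⟩
    ⟨_, Finset.mem_image_of_mem _ ha0⟩
  have hsub : (B.image e + A.image (fun a => - g a)) ⊆
      (Finset.Icc (-(r : ℤ)) (r : ℤ)).erase 0 := by
    intro x hx
    rw [Finset.mem_add] at hx
    obtain ⟨u, hu, v, hv, rfl⟩ := hx
    obtain ⟨b, hb, rfl⟩ := Finset.mem_image.1 hu
    obtain ⟨a, ha, rfl⟩ := Finset.mem_image.1 hv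
    obtain ⟨d, h0, h1, h2⟩ := h a ha b hb
    obtain ⟨e1, e2⟩ := he b hb
    obtain ⟨g1, g2⟩ := hg a ha
    have h3 := dvd_sub (dvd_sub e2 g2) h2
    have h6 : ((b : ℕ) : ℤ) - ((a0 : ℕ) : ℤ) - e b - (((a : ℕ) : ℤ) - ((a0 : ℕ) : ℤ) - g a) -
        (((b : ℕ) : ℤ) - ((a : ℕ) : ℤ) - d) = - e b + g a + d := by ring
    rw [h6] at h3
    have h7 : - e b + g a + d = 0 := by
      refine Int.eq_zero_of_abs_lt_dvd h3 ?_
      rw [abs_le] at e1 g1 h1
      rw [abs_lt]
      constructor <;> omega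
    have h8 : e b + - g a = d := by omega
    rw [h8, Finset.mem_erase, Finset.mem_Icc]
    rw [abs_le] at h1
    exact ⟨h0, h1⟩
  have hcard := Finset.card_le_card hsub
  rw [Finset.card_erase_of_mem (by rw [Finset.mem_Icc]; omega), Int.card_Icc] at hcard
  rw [hcE, hcG] at hcd
  have : 0 < A.card := Finset.card_pos.2 ⟨_, ha0⟩
  omega

theorem ex_star {n r j : ℕ} {e : Prop} (hr : r < n) (h4 : 4 * r < n) (h3 : 3 * r < n / 2)
    (hj : (¬ e ∧ j = 2 * r + 1) ∨ (e ∧ j = 2 * r + 2)) : Star j (ex n r e hr) := by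
  intro A B hA hB _ hc
  by_contra hno
  push Not at hno
  rcases hj with ⟨he, rfl⟩ | ⟨he, rfl⟩
  · have := near_star h4 hA hB (fun a ha b hb => by
      rcases hno a ha b hb with hh | hh
      · exact hh
      · exact absurd hh.1 he)
    omega
  · have hno' : ∀ a ∈ A, ∀ b ∈ B, near n r a b ∨ mat n a b := by
      intro a ha b hb
      rcases hno a ha b hb with hh | hh
      · exact Or.inl hh
      · exact Or.inr hh.2
    by_cases hall : ∀ a ∈ A, ∀ b ∈ B, near n r a b
    · have := near_star h4 hA hB hall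
      omega
    · push Not at hall
      obtain ⟨x, hx, y, hy, hxy⟩ := hall
      have hm : mat n x y := (hno' x hx y hy).resolve_left hxy
      have hyB : ∀ b ∈ B, b ≠ y → near n r x b := fun b hb hby =>
        (hno' x hx b hb).resolve_right (fun hh => hby (mat_uniq hh hm))
      have hxA : ∀ a ∈ A, a ≠ x → near n r a y := fun a ha hax =>
        (hno' a ha y hy).resolve_right (fun hh => hax (mat_uniq' hh hm))
      have cA : (A.erase x).card = A.card - 1 := Finset.card_erase_of_mem hx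
      have cB : (B.erase y).card = B.card - 1 := Finset.card_erase_of_mem hy
      have pA : 0 < A.card := Finset.card_pos.2 hA
      have pB : 0 < B.card := Finset.card_pos.2 hB
      by_cases hAe : (A.erase x).Nonempty
      · by_cases hBe : (B.erase y).Nonempty
        · have hmm : ∀ a ∈ A.erase x, ∀ b ∈ B.erase y, mat n a b := by
            intro a ha b hb
            rw [Finset.mem_erase] at ha hb
            refine (hno' a ha.2 b hb.2).resolve_left (fun hh => ?_)
            obtain ⟨d1, -, a1, b1⟩ := hyB b hb.2 hb.1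
            obtain ⟨d2, -, a2, b2⟩ := hh
            obtain ⟨d3, -, a3, b3⟩ := hxA a ha.2 ha.1
            have q := dvd_add (dvd_sub b1 b2) b3
            have h6 : ((b : ℕ) : ℤ) - ((x : ℕ) : ℤ) - d1 - (((b : ℕ) : ℤ) - ((a : ℕ) : ℤ) - d2) +
              (((y : ℕ) : ℤ) - ((a : ℕ) : ℤ) - d3) =
              ((y : ℕ) : ℤ) - ((x : ℕ) : ℤ) - (d1 - d2 + d3) := by ring
            rw [h6] at q
            rw [abs_le] at a1 a2 a3
            have q0 : ((y : ℕ) : ℤ) - ((x : ℕ) : ℤ) - (d1 - d2 + d3) = 0 := by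
              refine Int.eq_zero_of_abs_lt_dvd q ?_
              rw [abs_lt]
              rcases hm with hm | hm <;> constructor <;> omega
            rcases hm with hm | hm <;> omega
          have c1 : (B.erase y).card ≤ 1 := by
            rw [Finset.card_le_one]
            obtain ⟨a, ha⟩ := hAe
            exact fun u hu v hv => mat_uniq (hmm a ha u hu) (hmm a ha v hv)
          have c2 : (A.erase x).card ≤ 1 := by
            rw [Finset.card_le_one]
            obtain ⟨b, hb⟩ := hBe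
            exact fun u hu v hv => mat_uniq' (hmm u hu b hb) (hmm v hv b hb)
          obtain ⟨b, hb⟩ := hBe
          rw [Finset.mem_erase] at hb
          obtain ⟨d1, h0, a1, -⟩ := hyB b hb.2 hb.1
          have hr1 : 1 ≤ r := by
            by_contra hlt
            have : r = 0 := by omega
            subst this
            rw [abs_le] at a1
            apply h0
            push_cast at a1
            omega
          omega
        · have hBe0 : (B.erase y).card = 0 := by
            rw [Finset.card_eq_zero, ← Finset.not_nonempty_iff_eq_empty]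
            exact hBe
          have := near_star (A := A.erase x) (B := {y}) h4 hAe ⟨y, Finset.mem_singleton_self y⟩
            (fun a ha b hb => by
              rw [Finset.mem_singleton] at hb
              subst hb
              rw [Finset.mem_erase] at ha
              exact hxA a ha.2 ha.1)
          rw [Finset.card_singleton] at this
          omega
      · have hAe0 : (A.erase x).card = 0 := by
          rw [Finset.card_eq_zero, ← Finset.not_nonempty_iff_eq_empty]
          exact hAe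
        by_cases hBe : (B.erase y).Nonempty
        · have := near_star (A := {x}) (B := B.erase y) h4 ⟨x, Finset.mem_singleton_self x⟩ hBe
            (fun a ha b hb => by
              rw [Finset.mem_singleton] at ha
              subst ha
              rw [Finset.mem_erase] at hb
              exact hyB b hb.2 hb.1)
          rw [Finset.card_singleton] at this
          omega
        · have hBe0 : (B.erase y).card = 0 := by
            rw [Finset.card_eq_zero, ← Finset.not_nonempty_iff_eq_empty]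
            exact hBe
          omega

theorem near_deg {n r : ℕ} (h2 : 2 * r < n) (v : Fin n) :
    2 * r ≤ (Finset.univ.filter (fun w => near n r v w)).card := by
  have hn : (0 : ℤ) < n := by
    have := v.2
    omega
  have hnn : 0 < n := by exact_mod_cast hn
  let φ : ℤ → Fin n := fun d => ⟨((((v : ℕ) : ℤ) + d) % n).toNat, by
    have h1 := Int.emod_nonneg (((v : ℕ) : ℤ) + d) hn.ne'
    have h2 := Int.emod_lt_of_pos (((v : ℕ) : ℤ) + d) hn
    omega⟩
  have hφ : ∀ d, (n : ℤ) ∣ ((φ d : ℕ) : ℤ) - ((v : ℕ) : ℤ) - d := by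
    intro d
    have h1 := Int.emod_nonneg (((v : ℕ) : ℤ) + d) hn.ne'
    have h3 : ((φ d : ℕ) : ℤ) = (((v : ℕ) : ℤ) + d) % n := by
      simp only [φ]
      rw [Int.toNat_of_nonneg h1]
    rw [h3]
    have h4 := Int.emod_add_mul_ediv (((v : ℕ) : ℤ) + d) n
    refine ⟨-((((v : ℕ) : ℤ) + d) / n), ?_⟩
    linarith
  have hcard : ((Finset.Icc (-(r : ℤ)) (r : ℤ)).erase 0).card = 2 * r := by
    rw [Finset.card_erase_of_mem (by rw [Finset.mem_Icc]; omega), Int.card_Icc]
    omega
  rw [← hcard]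
  refine Finset.card_le_card_of_injOn φ ?_ ?_
  · intro d hd
    rw [Finset.mem_coe, Finset.mem_erase, Finset.mem_Icc] at hd
    rw [Finset.mem_coe, Finset.mem_filter]
    exact ⟨Finset.mem_univ _, d, hd.1, abs_le.2 hd.2, hφ d⟩
  · intro d hd d' hd' hdd
    rw [Finset.mem_coe, Finset.mem_erase, Finset.mem_Icc] at hd hd'
    have q := dvd_sub (hφ d) (hφ d')
    rw [hdd] at q
    have h6 : ((φ d' : ℕ) : ℤ) - ((v : ℕ) : ℤ) - d - (((φ d' : ℕ) : ℤ) - ((v : ℕ) : ℤ) - d') =
      d' - d := by ring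
    rw [h6] at q
    have h7 : d' - d = 0 := by
      refine Int.eq_zero_of_abs_lt_dvd q ?_
      rw [abs_lt]
      constructor <;> omega
    omega

theorem not_near_of_mat {n r : ℕ} (h4 : 4 * r < n) (h3 : 3 * r < n / 2) {x y : Fin n}
    (hm : mat n x y) : ¬ near n r x y := by
  rintro ⟨d, h0, h1, h2⟩
  rw [abs_le] at h1
  have q0 : ((y : ℕ) : ℤ) - ((x : ℕ) : ℤ) - d = 0 := by
    refine Int.eq_zero_of_abs_lt_dvd h2 ?_
    rw [abs_lt]
    rcases hm with hm | hm <;> constructor <;> omega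
  rcases hm with hm | hm <;> omega

theorem ex_deg {n r : ℕ} {e : Prop} (hr : r < n) (h4 : 4 * r < n) (h3 : 3 * r < n / 2)
    (v : Fin n) : 2 * r + (if e ∧ (v : ℕ) < 2 * (n / 2) then 1 else 0) ≤
      (nb (ex n r e hr) v).card := by
  have h1 := near_deg (n := n) (r := r) (by omega) v
  have hsub : (Finset.univ.filter (fun w => near n r v w)) ⊆ nb (ex n r e hr) v := by
    intro w hw
    rw [Finset.mem_filter] at hw
    exact mem_nb.2 (Or.inl hw.2)
  split_ifs with hv
  · obtain ⟨w, hw⟩ : ∃ w : Fin n, mat n v w := by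
      by_cases hlt : (v : ℕ) < n / 2
      · exact ⟨⟨(v : ℕ) + n / 2, by omega⟩, Or.inl ⟨hlt, rfl⟩⟩
      · refine ⟨⟨(v : ℕ) - n / 2, by omega⟩, Or.inr ⟨?_, ?_⟩⟩
        · show (v : ℕ) - n / 2 < n / 2
          omega
        · show (v : ℕ) = (v : ℕ) - n / 2 + n / 2
          omega
    have hwn : w ∉ (Finset.univ.filter (fun w => near n r v w)) := by
      rw [Finset.mem_filter]
      exact fun hh => not_near_of_mat h4 h3 hw hh.2
    have hsub' : insert w (Finset.univ.filter (fun w => near n r v w)) ⊆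
        nb (ex n r e hr) v := by
      rw [Finset.insert_subset_iff]
      exact ⟨mem_nb.2 (Or.inr ⟨hv.1, hw⟩), hsub⟩
    have := Finset.card_le_card hsub'
    rw [Finset.card_insert_of_notMem hwn] at this
    omega
  · have := Finset.card_le_card hsub
    omega

/-- the upper bound -/
theorem upper {k j : ℕ} (hk : 1 ≤ k) (hj : 1 ≤ j) (hbig : 3 * j ^ 2 < (k + j) + 2 * j) :
    ∃ G : SimpleGraph (Fin (k + j)), k ≤ kappa G ∧
      ∀ F : Finset (Sym2 (Fin (k + j))), (F : Set (Sym2 (Fin (k + j)))) ⊆ G.edgeSet →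
        k - 1 ≤ kappa (G.deleteEdges (F : Set (Sym2 (Fin (k + j))))) →
        F.card ≤ ((k + j) + (k * (k + j)) % 2) / 2 := by
  have hjj : j ≤ j ^ 2 := by nlinarith
  have hq : 4 * j ≤ 3 * j ^ 2 + 2 := by
    obtain ⟨t, rfl⟩ : ∃ t, j = t + 1 := ⟨j - 1, by omega⟩
    nlinarith
  obtain ⟨r, hrj⟩ : ∃ r, r = (j - 1) / 2 := ⟨_, rfl⟩
  have hb2 : 4 * r < k + j := by omega
  have hr : r < k + j := by omega
  have h3 : 3 * r < (k + j) / 2 := by
    have : 6 * r + 2 ≤ k + j := by
      have h5 : 2 * r + 1 ≤ j := by omega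
      nlinarith
    omega
  let e : Prop := j % 2 = 0
  have hje : (¬ e ∧ j = 2 * r + 1) ∨ (e ∧ j = 2 * r + 2) := by
    by_cases h : j % 2 = 0
    · right; exact ⟨h, by omega⟩
    · left; exact ⟨h, by omega⟩
  have hstar := ex_star (n := k + j) (e := e) hr hb2 h3 hje
  refine ⟨(ex (k + j) r e hr)ᶜ, ?_, ?_⟩
  · refine le_of_crit (by rw [Fintype.card_fin]; omega) ?_
    intro A B hA hB hAB hc
    rw [Fintype.card_fin] at hc
    obtain ⟨a, ha, b, hb, hab⟩ := hstar A B hA hB hAB (by omega)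
    refine ⟨a, ha, b, hb, (SimpleGraph.compl_adj _ _ _).2 ⟨?_, hab⟩⟩
    exact fun e => Finset.disjoint_left.1 hAB ha (e ▸ hb)
  · intro F hF1 hF2
    have hcount := upper_aux (k := k) (j := j) hk (by rw [Fintype.card_fin])
      (fun v : Fin (k + j) => 1 + (if e ∧ ¬ ((v : ℕ) < 2 * ((k + j) / 2)) then 1 else 0)) (by
        intro v
        rw [compl_compl]
        have hd := ex_deg (e := e) hr hb2 h3 v
        rcases hje with ⟨he, hj'⟩ | ⟨he, hj'⟩
        · rw [if_neg (fun hh => he hh.1)] at hd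
          rw [if_neg (fun hh => he hh.1)]
          omega
        · by_cases hv : (v : ℕ) < 2 * ((k + j) / 2)
          · rw [if_pos ⟨he, hv⟩] at hd
            rw [if_neg (fun hh => hh.2 hv)]
            omega
          · rw [if_neg (fun hh => hv hh.2)] at hd
            rw [if_pos ⟨he, hv⟩]
            omega) hF1 hF2
    rw [Finset.sum_add_distrib, Finset.sum_const, Finset.card_univ, Fintype.card_fin,
      smul_eq_mul, ← Finset.card_filter] at hcount
    by_cases hodd : e ∧ (k + j) % 2 = 1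
    · have hk1 : k % 2 = 1 := by
        have := hodd.1
        have h1 : j % 2 = 0 := this
        omega
      have hkn : (k * (k + j)) % 2 = 1 := by
        rw [Nat.mul_mod, hk1, hodd.2]
      have hle : (Finset.univ.filter
          (fun v : Fin (k + j) => e ∧ ¬ ((v : ℕ) < 2 * ((k + j) / 2)))).card ≤ 1 := by
        rw [Finset.card_le_one]
        intro u hu w hw
        rw [Finset.mem_filter] at hu hw
        have h1 := hu.2.2
        have h2 := hw.2.2
        have h3 := u.2
        have h4 := w.2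
        apply Fin.ext
        omega
      rw [hkn]
      omega
    · have hle : (Finset.univ.filter
          (fun v : Fin (k + j) => e ∧ ¬ ((v : ℕ) < 2 * ((k + j) / 2)))).card = 0 := by
        rw [Finset.card_eq_zero, Finset.filter_eq_empty_iff]
        rintro v - ⟨h1, h2⟩
        apply hodd
        refine ⟨h1, ?_⟩
        have := v.2
        omega
      omega

/-- **The value of `f(n,k)` for `k` close to `n`.** -/
theorem f_eq (k j : ℕ) (hk : 1 ≤ k) (hj : 1 ≤ j) (hbig : 3 * j ^ 2 < (k + j) + 2 * j) :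
    f (k + j) k = ((k + j) + (k * (k + j)) % 2) / 2 := by
  obtain ⟨G0, hG0, hU⟩ := upper hk hj hbig
  have hbdd : ∀ G : SimpleGraph (Fin (k + j)), BddAbove {m : ℕ | ∃ F : Finset (Sym2 (Fin (k + j))),
      (F : Set (Sym2 (Fin (k + j)))) ⊆ G.edgeSet ∧ F.card = m ∧
      k - 1 ≤ kappa (G.deleteEdges (F : Set (Sym2 (Fin (k + j)))))} := by
    intro G
    refine ⟨Fintype.card (Sym2 (Fin (k + j))), ?_⟩
    rintro m ⟨F, -, rfl, -⟩
    exact Finset.card_le_univ _
  have hlow : ∀ G : SimpleGraph (Fin (k + j)), k ≤ kappa G →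
      ((k + j) + (k * (k + j)) % 2) / 2 ≤ removable k G := by
    intro G hG
    obtain ⟨F, h1, h2, h3⟩ := lower hk hj (by rw [Fintype.card_fin]) hbig hG
    exact le_csSup (hbdd G) ⟨F, h1, h2, h3⟩
  have hup : removable k G0 ≤ ((k + j) + (k * (k + j)) % 2) / 2 := by
    refine csSup_le ?_ ?_
    · obtain ⟨F, h1, h2, h3⟩ := lower hk hj (by rw [Fintype.card_fin]) hbig hG0
      exact ⟨_, F, h1, rfl, h3⟩
    · rintro m ⟨F, h1, rfl, h3⟩
      exact hU F h1 h3
  have hmem : removable k G0 ∈ {m : ℕ | ∃ G : SimpleGraph (Fin (k + j)),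
      k ≤ kappa G ∧ removable k G = m} := ⟨G0, hG0, rfl⟩
  refine le_antisymm ((Nat.sInf_le hmem).trans hup) ?_
  obtain ⟨G, hG, hGe⟩ := Nat.sInf_mem ⟨_, hmem⟩
  have h1 := hlow G hG
  rw [hGe] at h1
  exact h1

end Pool.Agent.H289R4
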