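import Mathlib
import Pool.Agent.H289R4.Conn2
import Pool.Agent.H289R4.Upper

set_option autoImplicit false
set_option linter.unusedSectionVars false

/-!
# The value of `f(n,k)` in the linear range
-/

namespace Pool.Agent.H289R4

open Classical Finset

/-- the upper bound -/
theorem upper2 {k j : ℕ} (hk : 1 ≤ k) (hj : 1 ≤ j) (hbig : 4 * j ≤ k + j + 2) :
    ∃ G : SimpleGraph (Fin (k + j)), k ≤ kappa G ∧
      ∀ F : Finset (Sym2 (Fin (k + j))), (F : Set (Sym2 (Fin (k + j)))) ⊆ G.edgeSet →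
        k - 1 ≤ kappa (G.deleteEdges (F : Set (Sym2 (Fin (k + j))))) →
        F.card ≤ ((k + j) + (k * (k + j)) % 2) / 2 := by
  obtain ⟨r, hrj⟩ : ∃ r, r = (j - 1) / 2 := ⟨_, rfl⟩
  have hb2 : 4 * r < k + j := by omega
  have hr : r < k + j := by omega
  have h3 : 3 * r < (k + j) / 2 := by omega
  let e : Prop := j % 2 = 0
  have hje : (¬ e ∧ j = 2 * r + 1) ∨ (e ∧ j = 2 * r + 2) := by
    by_cases h : j % 2 = 0
    · right; exact ⟨h, by omega⟩
    · left; exact ⟨h, by omega⟩
  have hstar := ex_star (n := k + j) (e := e) hr hb2 h3 hje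
  refine ⟨(ex (k + j) r e hr)ᶜ, ?_, ?_⟩
  · refine le_of_crit (by rw [Fintype.card_fin]; omega) ?_
    intro A B hA hB hAB hc
    rw [Fintype.card_fin] at hc
    obtain ⟨a, ha, b, hb, hab⟩ := hstar A B hA hB hAB (by omega)
    refine ⟨a, ha, b, hb, (SimpleGraph.compl_adj _ _ _).2 ⟨?_, hab⟩⟩
    exact fun e => Finset.disjoint_left.1 hAB ha (e ▸ hb)
  · intro F hF1 hF2
    have hcount := upper_aux (k := k) (j := j) hk (by rw [Fintype.card_fin])
      (fun v : Fin (k + j) => 1 + (if e ∧ ¬ ((v : ℕ) < 2 * ((k + j) / 2)) then 1 else 0)) (by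
        intro v
        rw [compl_compl]
        have hd := ex_deg (e := e) hr hb2 h3 v
        rcases hje with ⟨he, hj'⟩ | ⟨he, hj'⟩
        · rw [if_neg (fun hh => he hh.1)] at hd
          rw [if_neg (fun hh => he hh.1)]
          omega
        · by_cases hv : (v : ℕ) < 2 * ((k + j) / 2)
          · rw [if_pos ⟨he, hv⟩] at hd
            rw [if_neg (fun hh => hh.2 hv)]
            omega
          · rw [if_neg (fun hh => hv hh.2)] at hd
            rw [if_pos ⟨he, hv⟩]
            omega) hF1 hF2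
    rw [Finset.sum_add_distrib, Finset.sum_const, Finset.card_univ, Fintype.card_fin,
      smul_eq_mul, ← Finset.card_filter] at hcount
    by_cases hodd : e ∧ (k + j) % 2 = 1
    · have hk1 : k % 2 = 1 := by
        have := hodd.1
        have h1 : j % 2 = 0 := this
        omega
      have hkn : (k * (k + j)) % 2 = 1 := by
        rw [Nat.mul_mod, hk1, hodd.2]
      have hle : (Finset.univ.filter
          (fun v : Fin (k + j) => e ∧ ¬ ((v : ℕ) < 2 * ((k + j) / 2)))).card ≤ 1 := by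
        rw [Finset.card_le_one]
        intro u hu w hw
        rw [Finset.mem_filter] at hu hw
        have h1 := hu.2.2
        have h2 := hw.2.2
        have h3 := u.2
        have h4 := w.2
        apply Fin.ext
        omega
      rw [hkn]
      omega
    · have hle : (Finset.univ.filter
          (fun v : Fin (k + j) => e ∧ ¬ ((v : ℕ) < 2 * ((k + j) / 2)))).card = 0 := by
        rw [Finset.card_eq_zero, Finset.filter_eq_empty_iff]
        rintro v - ⟨h1, h2⟩
        apply hodd
        refine ⟨h1, ?_⟩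
        have := v.2
        omega
      omega

/-- **The value of `f(n,k)` for `k` close to `n`.** -/
theorem f_eq2 (k j : ℕ) (hk : 1 ≤ k) (hj : 1 ≤ j) (hbig : 4 * j ≤ k + j + 2) :
    f (k + j) k = ((k + j) + (k * (k + j)) % 2) / 2 := by
  obtain ⟨G0, hG0, hU⟩ := upper2 hk hj hbig
  have hbdd : ∀ G : SimpleGraph (Fin (k + j)), BddAbove {m : ℕ | ∃ F : Finset (Sym2 (Fin (k + j))),
      (F : Set (Sym2 (Fin (k + j)))) ⊆ G.edgeSet ∧ F.card = m ∧
      k - 1 ≤ kappa (G.deleteEdges (F : Set (Sym2 (Fin (k + j)))))} := by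
    intro G
    refine ⟨Fintype.card (Sym2 (Fin (k + j))), ?_⟩
    rintro m ⟨F, -, rfl, -⟩
    exact Finset.card_le_univ _
  have hlow : ∀ G : SimpleGraph (Fin (k + j)), k ≤ kappa G →
      ((k + j) + (k * (k + j)) % 2) / 2 ≤ removable k G := by
    intro G hG
    obtain ⟨F, h1, h2, h3⟩ := lower2 hk hj (by rw [Fintype.card_fin]) hbig hG
    exact le_csSup (hbdd G) ⟨F, h1, h2, h3⟩
  have hup : removable k G0 ≤ ((k + j) + (k * (k + j)) % 2) / 2 := by
    refine csSup_le ?_ ?_
    · obtain ⟨F, h1, h2, h3⟩ := lower2 hk hj (by rw [Fintype.card_fin]) hbig hG0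
      exact ⟨_, F, h1, rfl, h3⟩
    · rintro m ⟨F, h1, rfl, h3⟩
      exact hU F h1 h3
  have hmem : removable k G0 ∈ {m : ℕ | ∃ G : SimpleGraph (Fin (k + j)),
      k ≤ kappa G ∧ removable k G = m} := ⟨G0, hG0, rfl⟩
  refine le_antisymm ((Nat.sInf_le hmem).trans hup) ?_
  obtain ⟨G, hG, hGe⟩ := Nat.sInf_mem ⟨_, hmem⟩
  have h1 := hlow G hG
  rw [hGe] at h1
  exact h1

end Pool.Agent.H289R4
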